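import Mathlib

/-!
Moments of the standard Gaussian measure on `ℝ^m`.
-/

open MeasureTheory Measure Set Filter Topology ProbabilityTheory
open scoped ENNReal NNReal Real

namespace Pool.Agent.H69.KLS

/-- the exponential moment of the square of a standard normal variable -/
lemma gauss_exp_sq {l : ℝ} (hl : l < 1 / 2) :
    Integrable (fun x : ℝ => Real.exp (l * x ^ 2)) (gaussianReal 0 1) ∧
      ∫ x, Real.exp (l * x ^ 2) ∂(gaussianReal 0 1) = Real.sqrt ((1 - 2 * l)⁻¹) := by
  have hb : 0 < 1 / 2 - l := by linarith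
  have hpt : ∀ x : ℝ, gaussianPDFReal 0 1 x * Real.exp (l * x ^ 2) =
      (Real.sqrt (2 * π))⁻¹ * Real.exp (-(1 / 2 - l) * x ^ 2) := by
    intro x
    rw [gaussianPDFReal_def]
    simp only [NNReal.coe_one, mul_one, sub_zero]
    rw [mul_assoc, ← Real.exp_add]
    congr 2
    ring
  have hint : Integrable (fun x : ℝ => gaussianPDFReal 0 1 x * Real.exp (l * x ^ 2)) := by
    simp_rw [hpt]
    exact (integrable_exp_neg_mul_sq hb).const_mul _
  constructor
  · rw [gaussianReal_of_var_ne_zero _ one_ne_zero, integrable_withDensity_iff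
      (measurable_gaussianPDF _ _) (Eventually.of_forall fun x => gaussianPDF_lt_top)]
    simp_rw [toReal_gaussianPDF, mul_comm (Real.exp _)]
    exact hint
  · rw [integral_gaussianReal_eq_integral_smul one_ne_zero]
    simp_rw [smul_eq_mul, hpt]
    rw [integral_const_mul, integral_gaussian, ← Real.sqrt_inv, ← Real.sqrt_mul (by positivity)]
    congr 1
    have : (1 - 2 * l) ≠ 0 := by linarith
    have h2 : (1 / 2 - l) ≠ 0 := hb.ne'
    have h3 : π ≠ 0 := Real.pi_ne_zero
    field_simp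

lemma gauss_exp_norm_sq {m : ℕ} {l : ℝ} (hl : l < 1 / 2) :
    ∫⁻ x : EuclideanSpace ℝ (Fin m), ENNReal.ofReal (Real.exp (l * ‖x‖ ^ 2))
      ∂(stdGaussian (EuclideanSpace ℝ (Fin m))) =
      ENNReal.ofReal (Real.sqrt ((1 - 2 * l)⁻¹) ^ m) := by
  rw [← map_pi_eq_stdGaussian, lintegral_map (by fun_prop) (by fun_prop)]
  have h1 : ∀ x : Fin m → ℝ, Real.exp (l * ‖(WithLp.toLp 2 x : EuclideanSpace ℝ (Fin m))‖ ^ 2) =
      ∏ i, Real.exp (l * x i ^ 2) := by
    intro x
    rw [EuclideanSpace.real_norm_sq_eq, Finset.mul_sum, Real.exp_sum]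
  simp_rw [h1]
  obtain ⟨hi, hv⟩ := gauss_exp_sq hl
  have hint : Integrable (fun x : Fin m → ℝ => ∏ i, Real.exp (l * x i ^ 2))
      (Measure.pi fun _ => gaussianReal 0 1) :=
    Integrable.fintype_prod fun _ => hi
  rw [← ofReal_integral_eq_lintegral_ofReal hint (Eventually.of_forall fun x =>
    Finset.prod_nonneg fun i _ => (Real.exp_pos _).le)]
  congr 1
  rw [integral_fintype_prod_eq_prod (f := fun (_ : Fin m) (x : ℝ) => Real.exp (l * x ^ 2))]
  simp [hv]

/-- upper bound for the moments of the norm of a standard Gaussian vector -/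
lemma gauss_norm_moment {m q : ℕ} (hq : 1 ≤ q) :
    ∫⁻ x : EuclideanSpace ℝ (Fin m), ENNReal.ofReal (‖x‖ ^ q)
      ∂(stdGaussian (EuclideanSpace ℝ (Fin m))) ≤
      ENNReal.ofReal (Real.sqrt (6 * (m + q)) ^ q) := by
  have hq0 : (0 : ℝ) < q := by exact_mod_cast hq
  have hm0 : (0 : ℝ) ≤ m := Nat.cast_nonneg m
  set l : ℝ := q / (4 * (m + q)) with hl
  have hl0 : 0 < l := by positivity
  have hl4 : l ≤ 1 / 4 := by
    rw [hl, div_le_iff₀ (by positivity)]
    linarith
  have hpt : ∀ x : EuclideanSpace ℝ (Fin m), ‖x‖ ^ q ≤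
      Real.sqrt (2 * (m + q)) ^ q * Real.exp (l * ‖x‖ ^ 2) := by
    intro x
    have h1 : ‖x‖ ^ 2 ≤ 2 * (m + q) * Real.exp (2 * l * ‖x‖ ^ 2 / q) := by
      have h2 : 2 * l * ‖x‖ ^ 2 / q ≤ Real.exp (2 * l * ‖x‖ ^ 2 / q) := by
        have := Real.add_one_le_exp (2 * l * ‖x‖ ^ 2 / q)
        linarith
      have h3 : 2 * (m + q) * (2 * l * ‖x‖ ^ 2 / q) = ‖x‖ ^ 2 := by
        rw [hl]
        field_simp
        ring
      calc ‖x‖ ^ 2 = 2 * (m + q) * (2 * l * ‖x‖ ^ 2 / q) := h3.symm
        _ ≤ _ := by gcongr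
    have h4 : ‖x‖ ≤ Real.sqrt (2 * (m + q)) * Real.exp (l * ‖x‖ ^ 2 / q) := by
      apply le_of_sq_le_sq _ (by positivity)
      rw [mul_pow, Real.sq_sqrt (by positivity), ← Real.exp_nat_mul]
      have h5 : ((2 : ℕ) : ℝ) * (l * ‖x‖ ^ 2 / q) = 2 * l * ‖x‖ ^ 2 / q := by
        push_cast
        ring
      rw [h5]
      exact h1
    calc ‖x‖ ^ q ≤ (Real.sqrt (2 * (m + q)) * Real.exp (l * ‖x‖ ^ 2 / q)) ^ q :=
          pow_le_pow_left₀ (norm_nonneg _) h4 q
      _ = _ := by
          rw [mul_pow, ← Real.exp_nat_mul]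
          congr 2
          field_simp
  calc ∫⁻ x : EuclideanSpace ℝ (Fin m), ENNReal.ofReal (‖x‖ ^ q)
      ∂(stdGaussian (EuclideanSpace ℝ (Fin m)))
      ≤ ∫⁻ x : EuclideanSpace ℝ (Fin m), ENNReal.ofReal (Real.sqrt (2 * (m + q)) ^ q) *
          ENNReal.ofReal (Real.exp (l * ‖x‖ ^ 2))
        ∂(stdGaussian (EuclideanSpace ℝ (Fin m))) := by
        refine lintegral_mono fun x => ?_
        rw [← ENNReal.ofReal_mul (by positivity)]
        exact ENNReal.ofReal_le_ofReal (hpt x)
    _ = ENNReal.ofReal (Real.sqrt (2 * (m + q)) ^ q * Real.sqrt ((1 - 2 * l)⁻¹) ^ m) := by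
        rw [lintegral_const_mul' _ _ ENNReal.ofReal_ne_top, gauss_exp_norm_sq (by linarith),
          ← ENNReal.ofReal_mul (by positivity)]
    _ ≤ ENNReal.ofReal (Real.sqrt (6 * (m + q)) ^ q) := by
        apply ENNReal.ofReal_le_ofReal
        have h5 : (1 - 2 * l)⁻¹ ≤ Real.exp (2 * l) ^ 2 := by
          rw [← Real.exp_nat_mul]
          have h6 : 1 + 4 * l ≤ Real.exp ((2 : ℕ) * (2 * l)) := by
            have := Real.add_one_le_exp ((2 : ℕ) * (2 * l))
            push_cast at this ⊢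
            linarith
          refine le_trans ?_ h6
          rw [inv_le_iff_one_le_mul₀ (by linarith)]
          nlinarith
        have h7 : Real.sqrt ((1 - 2 * l)⁻¹) ≤ Real.exp (2 * l) := by
          rw [Real.sqrt_le_left (Real.exp_pos _).le]
          exact h5
        have h8 : Real.sqrt ((1 - 2 * l)⁻¹) ^ m ≤ Real.exp (1 / 2) ^ q := by
          calc Real.sqrt ((1 - 2 * l)⁻¹) ^ m ≤ Real.exp (2 * l) ^ m :=
                pow_le_pow_left₀ (Real.sqrt_nonneg _) h7 m
            _ ≤ Real.exp (1 / 2) ^ q := by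
                rw [← Real.exp_nat_mul, ← Real.exp_nat_mul]
                apply Real.exp_le_exp.2
                rw [hl]
                have : (m : ℝ) * (2 * (q / (4 * (m + q)))) = q * (1 / 2) * (m / (m + q)) := by
                  field_simp
                  ring
                rw [this]
                apply mul_le_of_le_one_right (by positivity)
                rw [div_le_one (by positivity)]
                linarith
        calc Real.sqrt (2 * (m + q)) ^ q * Real.sqrt ((1 - 2 * l)⁻¹) ^ m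
            ≤ Real.sqrt (2 * (m + q)) ^ q * Real.exp (1 / 2) ^ q := by gcongr
          _ = (Real.sqrt (2 * (m + q)) * Real.exp (1 / 2)) ^ q := (mul_pow _ _ _).symm
          _ ≤ Real.sqrt (6 * (m + q)) ^ q := by
              apply pow_le_pow_left₀ (by positivity)
              apply Real.le_sqrt_of_sq_le
              rw [mul_pow, Real.sq_sqrt (by positivity), ← Real.exp_nat_mul]
              have h9 : Real.exp ((2 : ℕ) * (1 / 2)) ≤ 3 := by
                have := Real.exp_one_lt_d9
                norm_num at this ⊢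
                linarith
              nlinarith [Real.exp_pos ((2 : ℕ) * (1 / 2))]

/-- the law of a linear functional of norm one -/
lemma map_inner_stdGaussian {m : ℕ} (w : EuclideanSpace ℝ (Fin m)) (hw : ‖w‖ = 1) :
    (stdGaussian (EuclideanSpace ℝ (Fin m))).map (fun x => inner ℝ w x) = gaussianReal 0 1 := by
  have h := IsGaussian.map_eq_gaussianReal (μ := stdGaussian (EuclideanSpace ℝ (Fin m)))
    (innerSL ℝ w)
  rw [integral_strongDual_stdGaussian, variance_dual_stdGaussian, innerSL_apply_norm, hw] at h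
  have h2 : ((1 : ℝ) ^ 2).toNNReal = 1 := by norm_num
  rw [h2] at h
  exact h

/-- lower bound for the moments of a standard normal variable -/
lemma gauss_abs_moment {q : ℕ} (hq : 2 ≤ q) :
    ENNReal.ofReal ((Real.sqrt q / 7) ^ q) ≤
      ∫⁻ x : ℝ, ENNReal.ofReal (|x| ^ q) ∂(gaussianReal 0 1) := by
  have hq2 : (2 : ℝ) ≤ q := by exact_mod_cast hq
  set a := Real.sqrt (q / 2) with ha
  have ha1 : 1 ≤ a := by
    rw [ha, Real.one_le_sqrt]
    linarith
  have hasq : a ^ 2 = q / 2 := Real.sq_sqrt (by positivity)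
  have hpdf : ∀ x ∈ Icc a (a + 1), Real.exp (-(3 / 2) * q) ≤ gaussianPDFReal 0 1 x := by
    intro x hx
    rw [gaussianPDFReal_def]
    simp only [NNReal.coe_one, mul_one, sub_zero]
    have h1 : Real.exp (-1) ≤ (Real.sqrt (2 * π))⁻¹ := by
      rw [Real.exp_neg]
      apply inv_anti₀ (by positivity)
      rw [Real.sqrt_le_left (Real.exp_pos _).le]
      have := Real.exp_one_gt_d9
      have h3 := Real.pi_lt_d2
      nlinarith
    have h2 : Real.exp (-q) ≤ Real.exp (-x ^ 2 / 2) := by
      apply Real.exp_le_exp.2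
      have h3 : x ^ 2 ≤ (2 * a) ^ 2 := by
        apply pow_le_pow_left₀ (by linarith [hx.1])
        linarith [hx.2]
      nlinarith
    calc Real.exp (-(3 / 2) * q) ≤ Real.exp (-1) * Real.exp (-q) := by
          rw [← Real.exp_add]
          apply Real.exp_le_exp.2
          linarith
      _ ≤ _ := by gcongr
  have hprob : ENNReal.ofReal (Real.exp (-(3 / 2) * q)) ≤ gaussianReal 0 1 (Icc a (a + 1)) := by
    rw [gaussianReal_apply 0 one_ne_zero]
    calc ENNReal.ofReal (Real.exp (-(3 / 2) * q))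
        = ∫⁻ _ in Icc a (a + 1), ENNReal.ofReal (Real.exp (-(3 / 2) * q)) := by
          rw [setLIntegral_const, Real.volume_Icc]
          simp
      _ ≤ ∫⁻ x in Icc a (a + 1), gaussianPDF 0 1 x := by
          refine setLIntegral_mono' measurableSet_Icc fun x hx => ?_
          exact ENNReal.ofReal_le_ofReal (hpdf x hx)
  calc ENNReal.ofReal ((Real.sqrt q / 7) ^ q)
      ≤ ENNReal.ofReal (a ^ q) * ENNReal.ofReal (Real.exp (-(3 / 2) * q)) := by
        rw [← ENNReal.ofReal_mul (by positivity)]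
        apply ENNReal.ofReal_le_ofReal
        have h1 : Real.exp (-(3 / 2) * q) = Real.exp (-(3 / 2)) ^ q := by
          rw [← Real.exp_nat_mul]
          congr 1
          ring
        rw [h1, ← mul_pow]
        apply pow_le_pow_left₀ (by positivity)
        apply le_of_sq_le_sq _ (by positivity)
        rw [div_pow, Real.sq_sqrt (by positivity), mul_pow, hasq, ← Real.exp_nat_mul]
        have h2 : (2 : ℝ) / 49 ≤ Real.exp ((2 : ℕ) * (-(3 / 2))) := by
          have h3 : ((2 : ℕ) : ℝ) * (-(3 / 2)) = -3 := by norm_num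
          rw [h3, Real.exp_neg]
          have h4 : Real.exp 3 ≤ 49 / 2 := by
            have h5 : Real.exp 3 = Real.exp 1 ^ 3 := by
              rw [← Real.exp_nat_mul]; norm_num
            rw [h5]
            have h6 := Real.exp_one_lt_d9
            have h7 : Real.exp 1 ^ 3 ≤ (2.72 : ℝ) ^ 3 :=
              pow_le_pow_left₀ (Real.exp_pos _).le (by linarith) 3
            norm_num at h7 ⊢
            linarith
          rw [show (2 : ℝ) / 49 = (49 / 2)⁻¹ by norm_num]
          exact inv_anti₀ (Real.exp_pos _) h4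
        nlinarith
    _ ≤ ENNReal.ofReal (a ^ q) * gaussianReal 0 1 (Icc a (a + 1)) := by gcongr
    _ = ∫⁻ _ in Icc a (a + 1), ENNReal.ofReal (a ^ q) ∂(gaussianReal 0 1) := by
        rw [setLIntegral_const]
    _ ≤ ∫⁻ x in Icc a (a + 1), ENNReal.ofReal (|x| ^ q) ∂(gaussianReal 0 1) := by
        refine setLIntegral_mono' measurableSet_Icc fun x hx => ?_
        apply ENNReal.ofReal_le_ofReal
        apply pow_le_pow_left₀ (by linarith)
        exact hx.1.trans (le_abs_self x)
    _ ≤ _ := setLIntegral_le_lintegral _ _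

/-- lower bound for the moments of a linear functional of a standard Gaussian vector -/
lemma gauss_inner_moment {m q : ℕ} (hq : 2 ≤ q) (w : EuclideanSpace ℝ (Fin m)) :
    ENNReal.ofReal ((Real.sqrt q / 7 * ‖w‖) ^ q) ≤
      ∫⁻ x, ENNReal.ofReal (|inner ℝ w x| ^ q) ∂(stdGaussian (EuclideanSpace ℝ (Fin m))) := by
  rcases eq_or_ne w 0 with rfl | hw
  · rw [norm_zero, mul_zero, zero_pow (by omega), ENNReal.ofReal_zero]
    exact bot_le
  have hw0 : 0 < ‖w‖ := norm_pos_iff.2 hw
  set u := (‖w‖)⁻¹ • w with hu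
  have hun : ‖u‖ = 1 := by
    rw [hu, norm_smul, norm_inv, norm_norm, inv_mul_cancel₀ hw0.ne']
  have hwu : w = ‖w‖ • u := by
    rw [hu, smul_smul, mul_inv_cancel₀ hw0.ne', one_smul]
  have h1 : ∀ x, ENNReal.ofReal (|inner ℝ w x| ^ q) =
      ENNReal.ofReal (‖w‖ ^ q) * ENNReal.ofReal (|inner ℝ u x| ^ q) := by
    intro x
    rw [← ENNReal.ofReal_mul (by positivity), ← mul_pow]
    congr 2
    conv_lhs => rw [hwu]
    rw [real_inner_smul_left, abs_mul, abs_norm]
  simp_rw [h1]
  rw [lintegral_const_mul' _ _ ENNReal.ofReal_ne_top, mul_pow, mul_comm,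
    ENNReal.ofReal_mul (by positivity)]
  gcongr
  have h2 : ∫⁻ x, ENNReal.ofReal (|inner ℝ u x| ^ q) ∂(stdGaussian (EuclideanSpace ℝ (Fin m))) =
      ∫⁻ x : ℝ, ENNReal.ofReal (|x| ^ q) ∂(gaussianReal 0 1) := by
    rw [← map_inner_stdGaussian u hun, lintegral_map (by fun_prop) (by fun_prop)]
  rw [h2]
  exact gauss_abs_moment hq

end Pool.Agent.H69.KLS
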