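import Mathlib

/-!
One-dimensional facts on even, lower semicontinuous, midpoint log-concave functions
(section functions of symmetric open convex sets).
-/

open MeasureTheory Set Filter Topology
open scoped ENNReal NNReal Real

namespace Pool.Agent.H69.KLS

/-- A closed midpoint-convex subset of the line is an interval. -/
lemma Icc_subset_of_closed_midpoint {K : Set ℝ} (hK : IsClosed K)
    (hmid : ∀ x ∈ K, ∀ y ∈ K, (x + y) / 2 ∈ K) {a b : ℝ} (ha : a ∈ K) (hb : b ∈ K) :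
    Icc a b ⊆ K := by
  intro z hz
  by_contra hzU
  set P := K ∩ Iic z with hP
  set Q := K ∩ Ici z with hQ
  have hPne : P.Nonempty := ⟨a, ha, hz.1⟩
  have hQne : Q.Nonempty := ⟨b, hb, hz.2⟩
  have hPb : BddAbove P := ⟨z, fun x hx => hx.2⟩
  have hQb : BddBelow Q := ⟨z, fun x hx => hx.2⟩
  have hPc : IsClosed P := hK.inter isClosed_Iic
  have hQc : IsClosed Q := hK.inter isClosed_Ici
  have hp := hPc.csSup_mem hPne hPb
  have hq := hQc.csInf_mem hQne hQb
  set p := sSup P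
  set q := sInf Q
  have hpz : p < z := lt_of_le_of_ne hp.2 (fun h => hzU (h ▸ hp.1))
  have hzq : z < q := lt_of_le_of_ne hq.2 (fun h => hzU (h.symm ▸ hq.1))
  have hm := hmid p hp.1 q hq.1
  rcases le_total ((p + q) / 2) z with h | h
  · have := le_csSup hPb (show (p + q) / 2 ∈ P from ⟨hm, h⟩)
    change (p + q) / 2 ≤ p at this
    linarith
  · have := csInf_le hQb (show (p + q) / 2 ∈ Q from ⟨hm, h⟩)
    change q ≤ (p + q) / 2 at this
    linarith

/-- An open midpoint-convex subset of the line is an interval. -/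
lemma Icc_subset_of_open_midpoint {U : Set ℝ} (hU : IsOpen U)
    (hmid : ∀ x ∈ U, ∀ y ∈ U, (x + y) / 2 ∈ U) {a b : ℝ} (ha : a ∈ U) (hb : b ∈ U) :
    Icc a b ⊆ U := by
  intro z hz
  by_contra hzU
  have haz : a < z := lt_of_le_of_ne hz.1 (fun h => hzU (h ▸ ha))
  have hzb : z < b := lt_of_le_of_ne hz.2 (fun h => hzU (h ▸ hb))
  have hcl : Icc a b ⊆ closure U := by
    apply Icc_subset_of_closed_midpoint isClosed_closure _ (subset_closure ha) (subset_closure hb)
    intro x hx y hy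
    have hc : Continuous fun q : ℝ × ℝ => (q.1 + q.2) / 2 := by fun_prop
    exact map_mem_closure₂ (f := fun x y : ℝ => (x + y) / 2) hc hx hy fun a ha b hb => hmid a ha b hb
  set r := min (z - a) (b - z) with hr
  have hr0 : 0 < r := lt_min (by linarith) (by linarith)
  have hr1 : r ≤ z - a := min_le_left _ _
  have hr2 : r ≤ b - z := min_le_right _ _
  -- a point of U in (z, z + r)
  have h1 : (Ioo z (z + r) ∩ U).Nonempty := by
    have hmem : z + r / 2 ∈ closure U := hcl ⟨by linarith, by linarith⟩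
    exact mem_closure_iff.1 hmem (Ioo z (z + r)) isOpen_Ioo ⟨by linarith, by linarith⟩
  obtain ⟨u, hu, huU⟩ := h1
  -- reflect the open set
  set V : Set ℝ := (fun x => 2 * z - x) ⁻¹' (Ioo z (z + r) ∩ U) with hV
  have hVo : IsOpen V := (isOpen_Ioo.inter hU).preimage (by fun_prop)
  have hmem : 2 * z - u ∈ closure U := hcl ⟨by linarith [hu.2], by linarith [hu.1]⟩
  have hmV : 2 * z - u ∈ V := by
    change 2 * z - (2 * z - u) ∈ Ioo z (z + r) ∩ U
    rw [sub_sub_cancel]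
    exact ⟨hu, huU⟩
  obtain ⟨v, hvV, hvU⟩ := mem_closure_iff.1 hmem V hVo hmV
  have := hmid v hvU (2 * z - v) hvV.2
  rw [show (v + (2 * z - v)) / 2 = z by ring] at this
  exact hzU this

/-- Even, lower semicontinuous, midpoint log-concave functions are nonincreasing on `[0, ∞)`. -/
lemma antitone_of_even {s : ℝ → ℝ≥0∞} (hlsc : LowerSemicontinuous s)
    (heven : ∀ t, s (-t) = s t) (hmid : ∀ x y, s x * s y ≤ s ((x + y) / 2) ^ 2)
    {x y : ℝ} (hx : 0 ≤ x) (hxy : x ≤ y) : s y ≤ s x := by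
  refine le_of_forall_lt fun c hc => ?_
  have hsub : Icc (-y) y ⊆ s ⁻¹' (Ioi c) := by
    refine Icc_subset_of_open_midpoint (hlsc.isOpen_preimage c) ?_ ?_ ?_
    · intro u hu v hv
      change c < s ((u + v) / 2)
      have h1 : c ^ 2 < s ((u + v) / 2) ^ 2 := by
        refine lt_of_lt_of_le ?_ (hmid u v)
        rw [sq]
        exact ENNReal.mul_lt_mul hu hv
      by_contra hcon
      exact absurd h1 (not_lt.2 (pow_le_pow_left' (not_lt.1 hcon) 2))
    · change c < s (-y)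
      rw [heven]
      exact hc
    · exact hc
  exact hsub ⟨by linarith, hxy⟩

/-- decay: if `2 s(t) ≤ s(0)` for `t > T` then `s(u) ≤ 256 (T/u)^4 s(0)` for `u > T`. -/
lemma decay_step {s : ℝ → ℝ≥0∞} (hs0 : s 0 ≠ ⊤) (hs0' : s 0 ≠ 0)
    (hmid : ∀ x y, s x * s y ≤ s ((x + y) / 2) ^ 2) {t : ℝ}
    (ht : 2 * s t ≤ s 0) (k : ℕ) : 2 ^ (2 ^ k) * s (2 ^ k * t) ≤ s 0 := by
  induction k with
  | zero => simpa using ht
  | succ k ih =>
    have h1 := hmid 0 (2 ^ (k + 1) * t)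
    rw [show (0 + 2 ^ (k + 1) * t) / 2 = 2 ^ k * t by ring] at h1
    have h2 : s 0 * (2 ^ (2 ^ (k + 1)) * s (2 ^ (k + 1) * t)) ≤ s 0 * s 0 := by
      calc s 0 * (2 ^ (2 ^ (k + 1)) * s (2 ^ (k + 1) * t))
          = 2 ^ (2 ^ (k + 1)) * (s 0 * s (2 ^ (k + 1) * t)) := by ring
        _ ≤ 2 ^ (2 ^ (k + 1)) * s (2 ^ k * t) ^ 2 := by gcongr
        _ = (2 ^ (2 ^ k) * s (2 ^ k * t)) ^ 2 := by
            rw [mul_pow, ← pow_mul, ← pow_succ]
        _ ≤ s 0 ^ 2 := by gcongr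
        _ = s 0 * s 0 := sq _
    exact (ENNReal.mul_le_mul_iff_right hs0' hs0).1 h2

lemma four_mul_le_two_pow (k : ℕ) : 4 * k ≤ 4 + 2 ^ k := by
  rcases lt_or_ge k 4 with h | h
  · interval_cases k <;> norm_num
  · induction k, h using Nat.le_induction with
    | base => norm_num
    | succ n hn ih =>
      rw [pow_succ]
      have : 4 * n ≤ 2 ^ n := by
        clear ih
        induction n, hn using Nat.le_induction with
        | base => norm_num
        | succ m hm ihm => rw [pow_succ]; omega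
      omega

/-- pointwise bound of the second moment density -/
lemma pointwise_bound {s : ℝ → ℝ≥0∞} (hs0 : s 0 ≠ ⊤) (hs0' : s 0 ≠ 0)
    (hlsc : LowerSemicontinuous s) (heven : ∀ t, s (-t) = s t)
    (hmid : ∀ x y, s x * s y ≤ s ((x + y) / 2) ^ 2) {T : ℝ} (hT : 0 < T)
    (hT2 : ∀ t, T < t → 2 * s t ≤ s 0) (t : ℝ) :
    ENNReal.ofReal (t ^ 2) * s t ≤ ENNReal.ofReal (512 * T ^ 4 / (t ^ 2 + T ^ 2)) * s 0 := by
  wlog ht0 : 0 ≤ t generalizing t with H
  · have := H (-t) (by linarith)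
    rwa [heven, neg_sq] at this
  have hanti : s t ≤ s 0 := antitone_of_even hlsc heven hmid le_rfl ht0
  have hden : 0 < t ^ 2 + T ^ 2 := by positivity
  rcases le_or_gt t T with htT | htT
  · gcongr
    rw [le_div_iff₀ hden]
    nlinarith [pow_le_pow_left₀ ht0 htT 2, pow_le_pow_left₀ ht0 htT 4, sq_nonneg t, sq_nonneg T,
      mul_nonneg (sq_nonneg t) (sq_nonneg T), pow_pos hT 4]
  · have htpos : 0 < t := hT.trans htT
    obtain ⟨n, hn1, hn2⟩ := exists_mem_Ioc_zpow (show 0 < t / T by positivity)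
      (show (1 : ℝ) < 2 by norm_num)
    have h1 : 1 < t / T := by rwa [lt_div_iff₀ hT, one_mul]
    have hn0 : 0 ≤ n := by
      by_contra hcon
      have : (2 : ℝ) ^ (n + 1) ≤ 2 ^ (0 : ℤ) := zpow_le_zpow_right₀ (by norm_num) (by omega)
      rw [zpow_zero] at this
      linarith
    obtain ⟨k, rfl⟩ := Int.eq_ofNat_of_zero_le hn0
    have hk1 : (2 : ℝ) ^ k < t / T := by exact_mod_cast hn1
    have hk2 : t / T ≤ (2 : ℝ) ^ (k + 1) := by exact_mod_cast hn2
    have h2k : (0 : ℝ) < 2 ^ k := by positivity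
    have hu : T < t / 2 ^ k := by
      rw [lt_div_iff₀ h2k]
      rwa [lt_div_iff₀ hT, mul_comm] at hk1
    have hdec := decay_step hs0 hs0' hmid (hT2 _ hu) k
    rw [mul_div_cancel₀ _ h2k.ne'] at hdec
    have hk3 : t ≤ T * 2 ^ (k + 1) := by
      rwa [div_le_iff₀ hT, mul_comm] at hk2
    have hreal : t ^ 2 ≤ 512 * T ^ 4 / (t ^ 2 + T ^ 2) * 2 ^ (2 ^ k) := by
      rw [div_mul_eq_mul_div, le_div_iff₀ hden]
      have e1 : t ^ 4 ≤ (T * 2 ^ (k + 1)) ^ 4 := pow_le_pow_left₀ ht0 hk3 4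
      have e2 : ((2 : ℝ) ^ (k + 1)) ^ 4 ≤ 256 * 2 ^ (2 ^ k) := by
        rw [← pow_mul, show (256 : ℝ) = 2 ^ 8 by norm_num, ← pow_add]
        apply pow_le_pow_right₀ (by norm_num)
        have := four_mul_le_two_pow k
        omega
      have e3 : t ^ 4 ≤ T ^ 4 * (256 * 2 ^ (2 ^ k)) := by
        rw [mul_pow] at e1
        exact e1.trans (by gcongr)
      have e4 : T ^ 2 ≤ t ^ 2 := pow_le_pow_left₀ hT.le htT.le 2
      nlinarith [mul_le_mul_of_nonneg_left e4 (sq_nonneg t)]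
    calc ENNReal.ofReal (t ^ 2) * s t
        ≤ ENNReal.ofReal (512 * T ^ 4 / (t ^ 2 + T ^ 2) * 2 ^ (2 ^ k)) * s t := by gcongr
      _ = ENNReal.ofReal (512 * T ^ 4 / (t ^ 2 + T ^ 2)) * (2 ^ (2 ^ k) * s t) := by
          rw [ENNReal.ofReal_mul (by positivity), ENNReal.ofReal_pow (by norm_num)]
          norm_num
          ring
      _ ≤ _ := by gcongr

/-- The integral of the Cauchy-type density. -/
lemma lintegral_cauchy {T : ℝ} (hT : 0 < T) :
    ∫⁻ t, ENNReal.ofReal (512 * T ^ 4 / (t ^ 2 + T ^ 2)) = ENNReal.ofReal (512 * π * T ^ 3) := by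
  have hfun : (fun t : ℝ => 512 * T ^ 4 / (t ^ 2 + T ^ 2)) =
      fun t => 512 * T ^ 2 * (1 + (t / T) ^ 2)⁻¹ := by
    funext t
    have h1 : t ^ 2 + T ^ 2 ≠ 0 := by positivity
    have h2 : 1 + (t / T) ^ 2 ≠ 0 := by positivity
    field_simp
    ring
  have hint : Integrable (fun t : ℝ => (1 + (t / T) ^ 2)⁻¹) :=
    integrable_inv_one_add_sq.comp_div hT.ne'
  have hval : ∫ t : ℝ, 512 * T ^ 4 / (t ^ 2 + T ^ 2) = 512 * π * T ^ 3 := by
    rw [hfun, integral_const_mul, Measure.integral_comp_div (fun x : ℝ => (1 + x ^ 2)⁻¹) T,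
      integral_univ_inv_one_add_sq, abs_of_pos hT, smul_eq_mul]
    ring
  rw [← hval, ofReal_integral_eq_lintegral_ofReal]
  · rw [hfun]
    exact hint.const_mul _
  · exact Eventually.of_forall fun t => by positivity

/-- The one-dimensional inequality: `s(0)^2 ∫ t^2 s ≤ C (∫ s)^3` for an even, lower semicontinuous
midpoint log-concave function with bounded support. -/
theorem second_moment_le {s : ℝ → ℝ≥0∞} (hs0 : s 0 ≠ ⊤) (hlsc : LowerSemicontinuous s)
    (heven : ∀ t, s (-t) = s t) (hmid : ∀ x y, s x * s y ≤ s ((x + y) / 2) ^ 2)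
    {R : ℝ} (hR : ∀ t, R < |t| → s t = 0) :
    s 0 ^ 2 * ∫⁻ t, ENNReal.ofReal (t ^ 2) * s t ≤
      ENNReal.ofReal (4096 * π) * (∫⁻ t, s t) ^ 3 := by
  rcases eq_or_ne (s 0) 0 with hs0' | hs0'
  · simp [hs0']
  have hanti : ∀ x y, 0 ≤ x → x ≤ y → s y ≤ s x := fun x y hx hxy =>
    antitone_of_even hlsc heven hmid hx hxy
  set A : Set ℝ := {t | 0 ≤ t ∧ s 0 ≤ 2 * s t} with hA
  have h0A : (0 : ℝ) ∈ A := ⟨le_rfl, by
    rw [two_mul]; exact le_self_add⟩
  have hAb : BddAbove A := ⟨max R 0, fun t ht => by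
    by_contra hcon
    have h1 : R < |t| := lt_of_le_of_lt (le_max_left _ _) ((not_le.1 hcon).trans_le (le_abs_self t))
    have h2 := ht.2
    rw [hR t h1, mul_zero] at h2
    exact hs0' (le_antisymm h2 bot_le)⟩
  set T := sSup A with hT
  have hTpos : 0 < T := by
    have hlt : s 0 / 2 < s 0 := ENNReal.half_lt_self hs0' hs0
    have hev := hlsc 0 _ hlt
    obtain ⟨ε, hε, hball⟩ := Metric.eventually_nhds_iff.1 hev
    have h1 : ε / 2 ∈ A := by
      refine ⟨by positivity, ?_⟩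
      have h2 : s 0 / 2 < s (ε / 2) := hball (by
        rw [Real.dist_eq, sub_zero, abs_of_pos (by positivity)]
        linarith)
      calc s 0 = 2 * (s 0 / 2) := by
            rw [ENNReal.mul_div_cancel (by norm_num) (by norm_num)]
        _ ≤ 2 * s (ε / 2) := by gcongr
    exact lt_of_lt_of_le (by positivity) (le_csSup hAb h1)
  have hT2 : ∀ t, T < t → 2 * s t ≤ s 0 := by
    intro t ht
    by_contra hcon
    have : t ∈ A := ⟨(hTpos.trans ht).le, (not_le.1 hcon).le⟩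
    exact absurd (le_csSup hAb this) (not_le.2 ht)
  have hT1 : ∀ t, 0 ≤ t → t < T → s 0 ≤ 2 * s t := by
    intro t ht0 ht
    obtain ⟨u, hu, htu⟩ := exists_lt_of_lt_csSup ⟨0, h0A⟩ ht
    exact hu.2.trans (by
      gcongr
      exact hanti t u ht0 htu.le)
  -- lower bound of the integral
  have hlow : ENNReal.ofReal T * s 0 ≤ 2 * ∫⁻ t, s t := by
    calc ENNReal.ofReal T * s 0 = ∫⁻ _ in Ico 0 T, s 0 := by
          rw [setLIntegral_const, Real.volume_Ico, sub_zero, mul_comm]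
      _ ≤ ∫⁻ t in Ico 0 T, 2 * s t :=
          setLIntegral_mono' measurableSet_Ico fun t ht => hT1 t ht.1 ht.2
      _ ≤ ∫⁻ t, 2 * s t := setLIntegral_le_lintegral _ _
      _ = 2 * ∫⁻ t, s t := lintegral_const_mul' _ _ (by norm_num)
  have hup : ∫⁻ t, ENNReal.ofReal (t ^ 2) * s t ≤ ENNReal.ofReal (512 * π * T ^ 3) * s 0 := by
    calc ∫⁻ t, ENNReal.ofReal (t ^ 2) * s t
        ≤ ∫⁻ t, ENNReal.ofReal (512 * T ^ 4 / (t ^ 2 + T ^ 2)) * s 0 :=
          lintegral_mono fun t => pointwise_bound hs0 hs0' hlsc heven hmid hTpos hT2 t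
      _ = _ := by
          rw [lintegral_mul_const' _ _ hs0, lintegral_cauchy hTpos]
  calc s 0 ^ 2 * ∫⁻ t, ENNReal.ofReal (t ^ 2) * s t
      ≤ s 0 ^ 2 * (ENNReal.ofReal (512 * π * T ^ 3) * s 0) := by gcongr
    _ = ENNReal.ofReal (512 * π) * (ENNReal.ofReal T * s 0) ^ 3 := by
        rw [ENNReal.ofReal_mul (by positivity), ENNReal.ofReal_pow hTpos.le]
        ring
    _ ≤ ENNReal.ofReal (512 * π) * (2 * ∫⁻ t, s t) ^ 3 := by gcongr
    _ = ENNReal.ofReal (4096 * π) * (∫⁻ t, s t) ^ 3 := by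
        rw [mul_pow, ← mul_assoc]
        congr 1
        rw [show (2 : ℝ≥0∞) ^ 3 = ENNReal.ofReal 8 by norm_num,
          ← ENNReal.ofReal_mul (by positivity)]
        congr 1
        ring

end Pool.Agent.H69.KLS
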