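import Mathlib
import Pool.Agent.H84.PrekopaLeindler
import Pool.Agent.H71.BdryMeasure
import Pool.Agent.H69.KLS.OneDim

/-!
Module M3: the hyperplane section through the centre of a symmetric convex body.
-/

open MeasureTheory Measure Set Filter Topology
open scoped ENNReal NNReal Real

namespace Pool.Agent.H69.KLS

/-- the measure of the sections of an open set is lower semicontinuous -/
lemma lsc_section {F : Type*} [NormedAddCommGroup F] [InnerProductSpace ℝ F]
    [FiniteDimensional ℝ F] [MeasurableSpace F] [BorelSpace F] {Ω : Set (ℝ × F)}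
    (hΩ : IsOpen Ω) : LowerSemicontinuous fun t : ℝ => volume (Prod.mk t ⁻¹' Ω) := by
  intro t c hc
  have hopen : IsOpen (Prod.mk t ⁻¹' Ω) := hΩ.preimage (by fun_prop)
  obtain ⟨K, hK, hKc, hcK⟩ := hopen.exists_lt_isCompact hc
  obtain ⟨u, v, hu, hv, htu, hKv, huv⟩ := generalized_tube_lemma (isCompact_singleton (x := t)) hKc
    hΩ (by
      rintro ⟨a, b⟩ ⟨ha, hb⟩
      rw [mem_singleton_iff] at ha
      subst ha
      exact hK hb)
  filter_upwards [hu.mem_nhds (htu rfl)] with t' ht'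
  refine hcK.trans_le (measure_mono fun y hy => ?_)
  exact huv ⟨ht', hKv hy⟩

/-- Brunn-Minkowski (multiplicative midpoint form) for sections -/
lemma mid_section {F : Type*} [NormedAddCommGroup F] [InnerProductSpace ℝ F]
    [FiniteDimensional ℝ F] [MeasurableSpace F] [BorelSpace F] {Ω : Set (ℝ × F)}
    (hΩ : MeasurableSet Ω) (hconv : Convex ℝ Ω) (x y : ℝ) :
    volume (Prod.mk x ⁻¹' Ω) * volume (Prod.mk y ⁻¹' Ω) ≤
      volume (Prod.mk ((x + y) / 2) ⁻¹' Ω) ^ 2 := by
  have hm : ∀ t : ℝ, MeasurableSet (Prod.mk t ⁻¹' Ω) := fun t => measurable_prodMk_left hΩ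
  have h := Pool.Agent.H84.pl_inner F ((Prod.mk x ⁻¹' Ω).indicator 1)
    ((Prod.mk y ⁻¹' Ω).indicator 1) ((Prod.mk ((x + y) / 2) ⁻¹' Ω).indicator 1)
    (measurable_one.indicator (hm _)) (measurable_one.indicator (hm _))
    (measurable_one.indicator (hm _)) (by
      intro a b
      by_cases ha : a ∈ Prod.mk x ⁻¹' Ω
      · by_cases hb : b ∈ Prod.mk y ⁻¹' Ω
        · have hc : (2 : ℝ)⁻¹ • (a + b) ∈ Prod.mk ((x + y) / 2) ⁻¹' Ω := by
            have := hconv ha hb (show (0 : ℝ) ≤ 2⁻¹ by norm_num) (show (0 : ℝ) ≤ 2⁻¹ by norm_num)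
              (by norm_num)
            rw [Prod.smul_mk, Prod.smul_mk, Prod.mk_add_mk, ← smul_add, ← smul_add] at this
            change ((x + y) / 2, (2 : ℝ)⁻¹ • (a + b)) ∈ Ω
            have e : (x + y) / 2 = (2 : ℝ)⁻¹ • (x + y) := by
              rw [smul_eq_mul]; ring
            rw [e]
            exact this
          rw [indicator_of_mem ha, indicator_of_mem hb, indicator_of_mem hc]
          simp
        · simp [indicator_of_notMem hb]
      · simp [indicator_of_notMem ha])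
  rwa [lintegral_indicator_one (hm _), lintegral_indicator_one (hm _),
    lintegral_indicator_one (hm _)] at h

/-- Section bound on `ℝ × F`. -/
theorem section_prod {F : Type*} [NormedAddCommGroup F] [InnerProductSpace ℝ F]
    [FiniteDimensional ℝ F] [MeasurableSpace F] [BorelSpace F] {Ω : Set (ℝ × F)}
    (hΩ : IsOpen Ω) (hconv : Convex ℝ Ω) (hb : Bornology.IsBounded Ω)
    (hsymm : ∀ p ∈ Ω, -p ∈ Ω) :
    volume (Prod.mk (0 : ℝ) ⁻¹' Ω) ^ 2 *
        ∫⁻ p in Ω, ENNReal.ofReal (p.1 ^ 2) ∂((volume : Measure ℝ).prod (volume : Measure F)) ≤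
      ENNReal.ofReal (4096 * π) * ((volume : Measure ℝ).prod (volume : Measure F) Ω) ^ 3 := by
  obtain ⟨R, hR⟩ := hb.subset_closedBall (0 : ℝ × F)
  have hfin : volume (Prod.mk (0 : ℝ) ⁻¹' Ω) ≠ ⊤ := by
    have hsub : Prod.mk (0 : ℝ) ⁻¹' Ω ⊆ Metric.closedBall (0 : F) R := by
      intro y hy
      have := hR hy
      rw [mem_closedBall_zero_iff] at this ⊢
      exact (norm_snd_le ((0 : ℝ), y)).trans this
    exact ne_top_of_le_ne_top (measure_closedBall_lt_top).ne (measure_mono hsub)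
  have key := second_moment_le (s := fun t : ℝ => volume (Prod.mk t ⁻¹' Ω)) hfin
    (lsc_section hΩ) (fun t => by
      have : Prod.mk (-t) ⁻¹' Ω = -(Prod.mk t ⁻¹' Ω) := by
        ext y
        constructor
        · intro hy
          have := hsymm _ hy
          rw [Prod.neg_mk, neg_neg] at this
          exact this
        · intro hy
          have h2 : (t, -y) ∈ Ω := hy
          have := hsymm _ h2
          rw [Prod.neg_mk, neg_neg] at this
          exact this
      change volume (Prod.mk (-t) ⁻¹' Ω) = volume (Prod.mk t ⁻¹' Ω)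
      rw [this, Measure.measure_neg]) (mid_section hΩ.measurableSet hconv) (R := R) (by
      intro t ht
      have : Prod.mk t ⁻¹' Ω = ∅ := by
        ext y
        simp only [mem_empty_iff_false, iff_false]
        intro hy
        have h1 := hR hy
        rw [mem_closedBall_zero_iff] at h1
        have h2 := (norm_fst_le (t, y)).trans h1
        rw [Real.norm_eq_abs] at h2
        linarith
      simp only [this, measure_empty])
  have e1 : ∫⁻ p in Ω, ENNReal.ofReal (p.1 ^ 2) ∂((volume : Measure ℝ).prod (volume : Measure F))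
      = ∫⁻ t, ENNReal.ofReal (t ^ 2) * volume (Prod.mk t ⁻¹' Ω) := by
    rw [← lintegral_indicator hΩ.measurableSet, lintegral_prod _ (by
      apply Measurable.aemeasurable
      exact (by fun_prop : Measurable fun p : ℝ × F => ENNReal.ofReal (p.1 ^ 2)).indicator
        hΩ.measurableSet)]
    refine lintegral_congr fun t => ?_
    have hm : MeasurableSet (Prod.mk t ⁻¹' Ω) := measurable_prodMk_left hΩ.measurableSet
    rw [← lintegral_indicator_one hm, ← lintegral_const_mul _ (measurable_one.indicator hm)]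
    refine lintegral_congr fun y => ?_
    by_cases hy : (t, y) ∈ Ω
    · rw [indicator_of_mem hy, indicator_of_mem (show y ∈ Prod.mk t ⁻¹' Ω from hy)]
      simp
    · rw [indicator_of_notMem hy, indicator_of_notMem (show y ∉ Prod.mk t ⁻¹' Ω from hy)]
      simp
  have e2 : (volume : Measure ℝ).prod (volume : Measure F) Ω =
      ∫⁻ t, volume (Prod.mk t ⁻¹' Ω) := Measure.prod_apply hΩ.measurableSet
  rw [e1, e2]
  exact key

/-- Module M3, in `ℝ≥0∞` form. -/
theorem section_bound_ennreal {n : ℕ} {Ω : Set (EuclideanSpace ℝ (Fin (n + 1)))}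
    (hΩ : IsOpen Ω) (hconv : Convex ℝ Ω) (hb : Bornology.IsBounded Ω)
    (hsymm : ∀ x ∈ Ω, -x ∈ Ω) (a : EuclideanSpace ℝ (Fin (n + 1))) (ha : ‖a‖ = 1) :
    μHE[n] {x ∈ Ω | inner ℝ a x = 0} ^ 2 * ∫⁻ x in Ω, ENNReal.ofReal ((inner ℝ a x) ^ 2) ≤
      ENNReal.ofReal (4096 * π) * volume Ω ^ 3 := by
  set e0 : EuclideanSpace ℝ (Fin (n + 1)) := EuclideanSpace.single 0 1 with he0
  have hn : ‖a‖ = ‖e0‖ := by simp [he0, ha]
  let R : EuclideanSpace ℝ (Fin (n + 1)) ≃ₗᵢ[ℝ] EuclideanSpace ℝ (Fin (n + 1)) :=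
    (ℝ ∙ (a - e0))ᗮ.reflection
  have hR : R a = e0 := Submodule.reflection_sub hn
  have hRR : ∀ x, R (R x) = x := fun x => Submodule.reflection_reflection _ x
  -- coordinates
  let Φ : EuclideanSpace ℝ (Fin (n + 1)) → ℝ × EuclideanSpace ℝ (Fin n) :=
    fun x => (R x 0, Pool.H71.Bdry.tail n (R x))
  let ι : EuclideanSpace ℝ (Fin n) → EuclideanSpace ℝ (Fin (n + 1)) :=
    fun y => WithLp.toLp 2 (Fin.cons 0 y : Fin (n + 1) → ℝ)
  let G : ℝ × EuclideanSpace ℝ (Fin n) → EuclideanSpace ℝ (Fin (n + 1)) :=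
    fun p => R (WithLp.toLp 2 (Fin.cons p.1 p.2 : Fin (n + 1) → ℝ))
  have hΦ : MeasurePreserving Φ volume (volume.prod volume) :=
    (Pool.H71.Bdry.measurePreserving_tail n).comp (LinearIsometryEquiv.measurePreserving R)
  have hin : ∀ x, R x 0 = inner ℝ a x := by
    intro x
    rw [← R.inner_map_map a x, hR, he0]
    simp [EuclideanSpace.inner_single_left]
  have hGΦ : ∀ x, G (Φ x) = x := by
    intro x
    have : (WithLp.toLp 2 (Fin.cons (Φ x).1 (Φ x).2 : Fin (n + 1) → ℝ) :
        EuclideanSpace ℝ (Fin (n + 1))) = R x := by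
      ext i
      refine Fin.cases ?_ (fun j => ?_) i
      · rfl
      · rfl
    change R _ = x
    rw [this, hRR]
  have hGcont : Continuous G := by
    refine R.continuous.comp ?_
    refine (PiLp.continuous_toLp 2 _).comp ?_
    refine continuous_pi fun i => ?_
    refine Fin.cases ?_ (fun j => ?_) i
    · simpa using continuous_fst
    · simp only [Fin.cons_succ]
      fun_prop
  have hGlin : ∀ (c d : ℝ) (p q : ℝ × EuclideanSpace ℝ (Fin n)),
      G (c • p + d • q) = c • G p + d • G q := by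
    intro c d p q
    change R _ = c • R _ + d • R _
    rw [← map_smul, ← map_smul, ← map_add]
    congr 1
    ext i
    refine Fin.cases ?_ (fun j => ?_) i <;> simp
  set Ω' : Set (ℝ × EuclideanSpace ℝ (Fin n)) := G ⁻¹' Ω with hΩ'
  have hpre : Φ ⁻¹' Ω' = Ω := by
    ext x
    change G (Φ x) ∈ Ω ↔ _
    rw [hGΦ]
  have hΩ'o : IsOpen Ω' := hΩ.preimage hGcont
  have hΩ'c : Convex ℝ Ω' := by
    intro p hp q hq c d hc hd hcd
    change G _ ∈ Ω
    rw [hGlin]
    exact hconv hp hq hc hd hcd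
  have hΩ's : ∀ p ∈ Ω', -p ∈ Ω' := by
    intro p hp
    change G (-p) ∈ Ω
    have := hGlin (-1) 0 p 0
    simp only [neg_smul, one_smul, zero_smul, add_zero] at this
    rw [this]
    exact hsymm _ hp
  have hΩ'b : Bornology.IsBounded Ω' := by
    obtain ⟨r, hr⟩ := hb.subset_closedBall (0 : EuclideanSpace ℝ (Fin (n + 1)))
    rw [Metric.isBounded_iff_subset_closedBall (0 : ℝ × EuclideanSpace ℝ (Fin n))]
    refine ⟨r, fun p hp => ?_⟩
    have h1 := hr hp
    rw [mem_closedBall_zero_iff] at h1 ⊢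
    have h2 : ‖G p‖ ^ 2 = p.1 ^ 2 + ‖p.2‖ ^ 2 := by
      change ‖R _‖ ^ 2 = _
      rw [R.norm_map, EuclideanSpace.norm_sq_eq, EuclideanSpace.norm_sq_eq, Fin.sum_univ_succ]
      simp
    have hr0 : 0 ≤ r := (norm_nonneg _).trans h1
    have h3 : p.1 ^ 2 + ‖p.2‖ ^ 2 ≤ r ^ 2 := by
      rw [← h2]; exact pow_le_pow_left₀ (norm_nonneg _) h1 2
    rw [Prod.norm_def]
    refine max_le ?_ ?_
    · rw [Real.norm_eq_abs]
      exact abs_le_of_sq_le_sq (by nlinarith [sq_nonneg ‖p.2‖]) hr0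
    · exact le_of_sq_le_sq (by nlinarith [sq_nonneg p.1]) hr0
  have hsec : {x ∈ Ω | inner ℝ a x = 0} = (fun y => G (0, y)) '' (Prod.mk (0 : ℝ) ⁻¹' Ω') := by
    ext x
    constructor
    · rintro ⟨hx, h0⟩
      refine ⟨(Φ x).2, ?_, ?_⟩
      · change G (0, (Φ x).2) ∈ Ω
        have : ((0 : ℝ), (Φ x).2) = Φ x := by
          refine Prod.ext ?_ rfl
          change (0 : ℝ) = R x 0
          rw [hin, h0]
        rw [this, hGΦ]
        exact hx
      · have : ((0 : ℝ), (Φ x).2) = Φ x := by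
          refine Prod.ext ?_ rfl
          change (0 : ℝ) = R x 0
          rw [hin, h0]
        simp only [this, hGΦ]
    · rintro ⟨y, hy, rfl⟩
      refine ⟨hy, ?_⟩
      simp only
      rw [← hin]
      change R (R _) 0 = 0
      rw [hRR]
      rfl
  have hiso : Isometry (fun y => G (0, y)) := by
    refine Isometry.of_dist_eq fun y z => ?_
    change dist (R _) (R _) = _
    rw [R.dist_map, EuclideanSpace.dist_eq, EuclideanSpace.dist_eq, Fin.sum_univ_succ]
    simp
  have hM : μHE[n] {x ∈ Ω | inner ℝ a x = 0} = volume (Prod.mk (0 : ℝ) ⁻¹' Ω') := by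
    rw [hsec, ← EuclideanSpace.euclideanHausdorffMeasure_eq_volume, euclideanHausdorffMeasure_def,
      euclideanHausdorffMeasure_def, Measure.smul_apply, Measure.smul_apply]
    congr 1
    exact hiso.hausdorffMeasure_image (Or.inl (Nat.cast_nonneg n)) _
  have hV : volume Ω = ((volume : Measure ℝ).prod volume) Ω' := by
    rw [← hΦ.measure_preimage hΩ'o.measurableSet.nullMeasurableSet, hpre]
  have hI : ∫⁻ x in Ω, ENNReal.ofReal ((inner ℝ a x) ^ 2) =
      ∫⁻ p in Ω', ENNReal.ofReal (p.1 ^ 2) ∂((volume : Measure ℝ).prod volume) := by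
    rw [← hΦ.setLIntegral_comp_preimage hΩ'o.measurableSet (by fun_prop), hpre]
    refine setLIntegral_congr_fun hΩ.measurableSet fun x _ => ?_
    change _ = ENNReal.ofReal ((R x 0) ^ 2)
    rw [hin]
  rw [hM, hV, hI]
  exact section_prod hΩ'o hΩ'c hΩ'b hΩ's

/-- Module M3, real form. -/
theorem section_bound {n : ℕ} {Ω : Set (EuclideanSpace ℝ (Fin (n + 1)))}
    (hΩ : IsOpen Ω) (hconv : Convex ℝ Ω) (hb : Bornology.IsBounded Ω)
    (hsymm : ∀ x ∈ Ω, -x ∈ Ω) (a : EuclideanSpace ℝ (Fin (n + 1))) (ha : ‖a‖ = 1) :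
    (μHE[n] {x ∈ Ω | inner ℝ a x = 0}).toReal ^ 2 * ∫ x in Ω, (inner ℝ a x) ^ 2 ≤
      4096 * π * (volume Ω).toReal ^ 3 := by
  have h := section_bound_ennreal hΩ hconv hb hsymm a ha
  have hV : volume Ω ≠ ⊤ := hb.measure_lt_top.ne
  have hrhs : ENNReal.ofReal (4096 * π) * volume Ω ^ 3 ≠ ⊤ :=
    ENNReal.mul_ne_top ENNReal.ofReal_ne_top (ENNReal.pow_ne_top hV)
  have h2 := ENNReal.toReal_mono hrhs h
  rw [ENNReal.toReal_mul, ENNReal.toReal_mul, ENNReal.toReal_pow, ENNReal.toReal_pow,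
    ENNReal.toReal_ofReal (by positivity)] at h2
  rwa [integral_eq_lintegral_of_nonneg_ae (Eventually.of_forall fun x => sq_nonneg _)
    (by fun_prop)]

end Pool.Agent.H69.KLS
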