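import Mathlib

/-!
Radial midpoint log-concave functions on `ℝ^k`, `k ≥ 2`: moments of high order.
-/

open MeasureTheory Measure Set Filter Topology
open scoped ENNReal NNReal Real

namespace Pool.Agent.H69.KLS

/-- radial, midpoint log-concave functions -/
structure RadLC {k : ℕ} (g : EuclideanSpace ℝ (Fin k) → ℝ≥0∞) : Prop where
  meas : Measurable g
  mid : ∀ x y, g x * g y ≤ g ((2 : ℝ)⁻¹ • (x + y)) ^ 2
  rad : ∀ x y, ‖x‖ = ‖y‖ → g x = g y
  fin : g 0 ≠ ⊤

namespace RadLC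

variable {k : ℕ} {g : EuclideanSpace ℝ (Fin k) → ℝ≥0∞}

/-- orthogonal vectors of prescribed norm exist in dimension at least two -/
lemma exists_orth (hk : 2 ≤ k) (x : EuclideanSpace ℝ (Fin k)) {c : ℝ} (hc : 0 ≤ c) :
    ∃ w : EuclideanSpace ℝ (Fin k), inner ℝ x w = 0 ∧ ‖w‖ = c := by
  have hfin : Module.finrank ℝ (EuclideanSpace ℝ (Fin k)) = k := by simp
  have h1 : Module.finrank ℝ (ℝ ∙ x : Submodule ℝ (EuclideanSpace ℝ (Fin k))) ≤ 1 :=
    (finrank_span_le_card ({x} : Set (EuclideanSpace ℝ (Fin k)))).trans (by simp)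
  have h2 := Submodule.finrank_add_finrank_orthogonal (ℝ ∙ x)
  rw [hfin] at h2
  have h3 : 0 < Module.finrank ℝ ((ℝ ∙ x)ᗮ : Submodule ℝ (EuclideanSpace ℝ (Fin k))) := by omega
  have h4 : ((ℝ ∙ x)ᗮ : Submodule ℝ (EuclideanSpace ℝ (Fin k))) ≠ ⊥ := by
    intro h
    rw [h] at h3
    simp at h3
  obtain ⟨v, hv, hv0⟩ := Submodule.exists_mem_ne_zero_of_ne_bot h4
  refine ⟨(c / ‖v‖) • v, ?_, ?_⟩
  · rw [inner_smul_right, Submodule.mem_orthogonal_singleton_iff_inner_right.1 hv, mul_zero]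
  · rw [norm_smul, Real.norm_of_nonneg (by positivity)]
    field_simp

lemma mono (hg : RadLC g) (hk : 2 ≤ k) {x y : EuclideanSpace ℝ (Fin k)} (h : ‖x‖ ≤ ‖y‖) :
    g y ≤ g x := by
  obtain ⟨w, hw, hwn⟩ := exists_orth hk x (Real.sqrt_nonneg (‖y‖ ^ 2 - ‖x‖ ^ 2))
  have hsq : ‖w‖ ^ 2 = ‖y‖ ^ 2 - ‖x‖ ^ 2 := by
    rw [hwn, Real.sq_sqrt]
    nlinarith [norm_nonneg x, norm_nonneg y]
  have h1 : ‖x + w‖ = ‖y‖ := by
    have := norm_add_sq_real x w
    rw [hw, mul_zero, add_zero, hsq] at this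
    rw [← Real.sqrt_sq (norm_nonneg (x + w)), this, ← Real.sqrt_sq (norm_nonneg y)]
    congr 1
    rw [Real.sqrt_sq (norm_nonneg y)]
    ring
  have h2 : ‖x - w‖ = ‖y‖ := by
    have := norm_sub_sq_real x w
    rw [hw, mul_zero, sub_zero, hsq] at this
    rw [← Real.sqrt_sq (norm_nonneg (x - w)), this, ← Real.sqrt_sq (norm_nonneg y)]
    congr 1
    rw [Real.sqrt_sq (norm_nonneg y)]
    ring
  have h3 := hg.mid (x + w) (x - w)
  rw [hg.rad _ _ h1, hg.rad _ _ h2] at h3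
  have h4 : (2 : ℝ)⁻¹ • (x + w + (x - w)) = x := by
    rw [show x + w + (x - w) = (2 : ℝ) • x by rw [two_smul]; abel, smul_smul]
    norm_num
  rw [h4, ← sq] at h3
  by_contra hcon
  exact absurd h3 (not_le.2 (by
    rw [sq, sq]
    exact ENNReal.mul_lt_mul (not_le.1 hcon) (not_le.1 hcon)))

lemma le_zero (hg : RadLC g) (hk : 2 ≤ k) (x : EuclideanSpace ℝ (Fin k)) : g x ≤ g 0 :=
  hg.mono hk (by simp)

/-- the volume of balls -/
lemma vol_closedBall {r : ℝ} (hr : 0 ≤ r) :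
    volume (Metric.closedBall (0 : EuclideanSpace ℝ (Fin k)) r) =
      ENNReal.ofReal r ^ k * volume (Metric.ball (0 : EuclideanSpace ℝ (Fin k)) 1) := by
  rw [addHaar_closedBall volume _ hr, ENNReal.ofReal_pow hr]
  simp

/-- Step 2: the value at radius `2 r0` is at most `2^{-k}` times the value at zero. -/
lemma step_two (hg : RadLC g) (hk : 2 ≤ k) (e : EuclideanSpace ℝ (Fin k)) (he : ‖e‖ = 1)
    {r : ℝ} (hr : 0 < r) (hV : ∫⁻ x, g x ≠ ⊤)
    (htail : 4 * ∫⁻ x in (Metric.closedBall (0 : EuclideanSpace ℝ (Fin k)) r)ᶜ, g x ≤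
      ∫⁻ x, g x) :
    2 ^ k * g ((2 * r) • e) ≤ g 0 := by
  set B := Metric.closedBall (0 : EuclideanSpace ℝ (Fin k)) r with hB
  set ω := volume (Metric.ball (0 : EuclideanSpace ℝ (Fin k)) 1) with hω
  have hω0 : ω ≠ 0 := (Metric.measure_ball_pos volume _ one_pos).ne'
  have hωt : ω ≠ ⊤ := measure_ball_lt_top.ne
  have hBm : MeasurableSet B := measurableSet_closedBall
  have hsplit : ∫⁻ x, g x = (∫⁻ x in B, g x) + ∫⁻ x in Bᶜ, g x :=
    (lintegral_add_compl g hBm).symm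
  set I := ∫⁻ x in B, g x with hI
  set J := ∫⁻ x in Bᶜ, g x with hJ
  have hIle : I ≤ g 0 * (ENNReal.ofReal r ^ k * ω) := by
    calc I ≤ ∫⁻ _ in B, g 0 := setLIntegral_mono' hBm fun x _ => hg.le_zero hk x
      _ = g 0 * (ENNReal.ofReal r ^ k * ω) := by
        rw [setLIntegral_const, hB, vol_closedBall hr.le]
  have hJ3 : 3 * J ≤ I := by
    rw [hsplit] at htail hV
    have hJt : J ≠ ⊤ := fun h => hV (by rw [h]; simp)
    have h5 : 3 * J + J ≤ I + J := by
      calc 3 * J + J = 4 * J := by ring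
        _ ≤ I + J := htail
    exact (ENNReal.add_le_add_iff_right hJt).1 h5
  -- lower bound of J
  have hJge : (2 ^ k - 1) * (ENNReal.ofReal r ^ k * ω) * g ((2 * r) • e) ≤ J := by
    have hsub : Metric.closedBall (0 : EuclideanSpace ℝ (Fin k)) (2 * r) \ B ⊆ Bᶜ :=
      fun x hx => hx.2
    have hvol : volume (Metric.closedBall (0 : EuclideanSpace ℝ (Fin k)) (2 * r) \ B) =
        (2 ^ k - 1) * (ENNReal.ofReal r ^ k * ω) := by
      rw [measure_sdiff (Metric.closedBall_subset_closedBall (by linarith))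
        hBm.nullMeasurableSet (measure_closedBall_lt_top).ne, vol_closedBall (by linarith),
        vol_closedBall hr.le, ENNReal.ofReal_mul (by norm_num), mul_pow,
        ENNReal.sub_mul (by
          intro _ _
          exact ENNReal.mul_ne_top (ENNReal.pow_ne_top ENNReal.ofReal_ne_top) hωt), one_mul]
      congr 1
      rw [mul_assoc, show ENNReal.ofReal 2 = 2 by norm_num]
    calc (2 ^ k - 1) * (ENNReal.ofReal r ^ k * ω) * g ((2 * r) • e)
        = ∫⁻ _ in Metric.closedBall (0 : EuclideanSpace ℝ (Fin k)) (2 * r) \ B,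
            g ((2 * r) • e) := by
          rw [setLIntegral_const, hvol, mul_comm]
      _ ≤ ∫⁻ x in Metric.closedBall (0 : EuclideanSpace ℝ (Fin k)) (2 * r) \ B, g x := by
          refine setLIntegral_mono' (measurableSet_closedBall.diff hBm) fun x hx => ?_
          refine hg.mono hk ?_
          have := hx.1
          rw [mem_closedBall_zero_iff] at this
          rw [norm_smul, he, mul_one, Real.norm_of_nonneg (by linarith)]
          exact this
      _ ≤ J := lintegral_mono_set hsub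
  -- combine
  have hfac0 : ENNReal.ofReal r ^ k * ω ≠ 0 := mul_ne_zero (pow_ne_zero _ (by simpa using hr)) hω0
  have hfact : ENNReal.ofReal r ^ k * ω ≠ ⊤ :=
    ENNReal.mul_ne_top (ENNReal.pow_ne_top ENNReal.ofReal_ne_top) hωt
  have h6 : (ENNReal.ofReal r ^ k * ω) * (3 * (2 ^ k - 1) * g ((2 * r) • e)) ≤
      (ENNReal.ofReal r ^ k * ω) * g 0 := by
    calc (ENNReal.ofReal r ^ k * ω) * (3 * (2 ^ k - 1) * g ((2 * r) • e))
        = 3 * ((2 ^ k - 1) * (ENNReal.ofReal r ^ k * ω) * g ((2 * r) • e)) := by ring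
      _ ≤ 3 * J := by gcongr
      _ ≤ I := hJ3
      _ ≤ _ := hIle
      _ = _ := by ring
  have h7 := (ENNReal.mul_le_mul_iff_right hfac0 hfact).1 h6
  refine le_trans ?_ h7
  gcongr
  -- 2^k ≤ 3 (2^k - 1)
  have h8 : (2 : ℝ≥0∞) ^ k = ((2 ^ k : ℕ) : ℝ≥0∞) := by push_cast; rfl
  rw [h8]
  have h9 : ((2 ^ k : ℕ) : ℝ≥0∞) - 1 = ((2 ^ k - 1 : ℕ) : ℝ≥0∞) := by
    rw [ENNReal.natCast_sub]; simp
  rw [h9]
  have h10 : 2 ^ k ≤ 3 * (2 ^ k - 1) := by
    have : 2 ^ 1 ≤ 2 ^ k := Nat.pow_le_pow_right (by norm_num) (by omega)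
    omega
  exact_mod_cast h10

/-- `√2` as an extended nonnegative number -/
noncomputable def q2 : ℝ≥0∞ := ENNReal.ofReal (Real.sqrt 2)

lemma q2_sq : q2 ^ 2 = 2 := by
  rw [q2, ← ENNReal.ofReal_pow (Real.sqrt_nonneg _), Real.sq_sqrt (by norm_num)]
  norm_num

lemma q2_ne_zero : q2 ≠ 0 := by
  intro h
  have := q2_sq
  rw [h] at this
  norm_num at this

lemma q2_ne_top : q2 ≠ ⊤ := ENNReal.ofReal_ne_top

/-- Step 3: geometric decay along the multiples of `r`. -/
lemma step_three (hg : RadLC g) (hk : 2 ≤ k) (e : EuclideanSpace ℝ (Fin k)) (he : ‖e‖ = 1)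
    {r : ℝ} (hr : 0 < r) (h2 : 2 ^ k * g ((2 * r) • e) ≤ g 0) (j : ℕ) :
    q2 ^ k * g (((j + 2 : ℕ) * r) • e) ≤ g (((j + 1 : ℕ) * r) • e) := by
  have hmid : ∀ j : ℕ, g ((j * r) • e) * g (((j + 2 : ℕ) * r) • e) ≤
      g (((j + 1 : ℕ) * r) • e) ^ 2 := by
    intro j
    have := hg.mid ((j * r) • e) (((j + 2 : ℕ) * r) • e)
    rw [← add_smul, smul_smul] at this
    have e1 : (2 : ℝ)⁻¹ * (j * r + ((j + 2 : ℕ) : ℝ) * r) = ((j + 1 : ℕ) : ℝ) * r := by
      push_cast; ring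
    rwa [e1] at this
  have hfin : ∀ x, g x ≠ ⊤ := fun x => ne_top_of_le_ne_top hg.fin (hg.le_zero hk x)
  have hqk : (q2 ^ k) ^ 2 = 2 ^ k := by rw [← pow_mul, mul_comm, pow_mul, q2_sq]
  induction j with
  | zero =>
    have h3 := hmid 0
    simp only [Nat.cast_zero, zero_mul, zero_smul, zero_add] at h3 ⊢
    have h4 : (q2 ^ k * g (((2 : ℕ) * r) • e)) ^ 2 ≤ g (((1 : ℕ) * r) • e) ^ 2 := by
      calc (q2 ^ k * g (((2 : ℕ) * r) • e)) ^ 2
          = (2 ^ k * g (((2 : ℕ) * r) • e)) * g (((2 : ℕ) * r) • e) := by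
            rw [mul_pow, hqk]; ring
        _ ≤ g 0 * g (((2 : ℕ) * r) • e) := by
            gcongr
            exact_mod_cast h2
        _ ≤ _ := h3
    exact (ENNReal.pow_le_pow_left_iff two_ne_zero).1 h4
  | succ j ih =>
    have h3 := hmid (j + 1)
    rcases eq_or_ne (g (((j + 2 : ℕ) * r) • e)) 0 with h0 | h0
    · have h5 : g (((j + 1 + 2 : ℕ) * r) • e) = 0 := by
        have := hg.mono hk (x := ((j + 2 : ℕ) * r) • e) (y := ((j + 1 + 2 : ℕ) * r) • e) (by
          rw [norm_smul, norm_smul, he, mul_one, mul_one, Real.norm_of_nonneg (by positivity),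
            Real.norm_of_nonneg (by positivity)]
          push_cast
          nlinarith)
        rw [h0] at this
        exact le_antisymm this bot_le
      rw [h5, mul_zero]
      exact bot_le
    · have h6 : g (((j + 2 : ℕ) * r) • e) * (q2 ^ k * g (((j + 1 + 2 : ℕ) * r) • e)) ≤
          g (((j + 2 : ℕ) * r) • e) * g (((j + 1 + 1 : ℕ) * r) • e) := by
        calc g (((j + 2 : ℕ) * r) • e) * (q2 ^ k * g (((j + 1 + 2 : ℕ) * r) • e))
            = (q2 ^ k * g (((j + 2 : ℕ) * r) • e)) * g (((j + 1 + 2 : ℕ) * r) • e) := by ring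
          _ ≤ g (((j + 1 : ℕ) * r) • e) * g (((j + 1 + 2 : ℕ) * r) • e) := by gcongr
          _ ≤ g (((j + 1 + 1 : ℕ) * r) • e) ^ 2 := h3
          _ = _ := sq _
      exact (ENNReal.mul_le_mul_iff_right h0 (hfin _)).1 h6

lemma decay (hg : RadLC g) (hk : 2 ≤ k) (e : EuclideanSpace ℝ (Fin k)) (he : ‖e‖ = 1)
    {r : ℝ} (hr : 0 < r) (h2 : 2 ^ k * g ((2 * r) • e) ≤ g 0) (j : ℕ) :
    (q2 ^ k) ^ j * g (((j + 1 : ℕ) * r) • e) ≤ g (r • e) := by
  induction j with
  | zero => simp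
  | succ j ih =>
    calc (q2 ^ k) ^ (j + 1) * g (((j + 1 + 1 : ℕ) * r) • e)
        = (q2 ^ k) ^ j * (q2 ^ k * g (((j + 2 : ℕ) * r) • e)) := by rw [pow_succ]; ring
      _ ≤ (q2 ^ k) ^ j * g (((j + 1 : ℕ) * r) • e) := by
          gcongr
          exact step_three hg hk e he hr h2 j
      _ ≤ _ := ih

lemma log_two_ge : (1 : ℝ) / 2 ≤ Real.log 2 := by
  have := Real.log_two_gt_d9
  linarith

/-- the pointwise bound -/
lemma pointwise (hg : RadLC g) (hk : 2 ≤ k) (e : EuclideanSpace ℝ (Fin k)) (he : ‖e‖ = 1)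
    {r : ℝ} (hr : 0 < r) (h2 : 2 ^ k * g ((2 * r) • e) ≤ g 0) {q : ℕ} (hq : k ≤ q)
    {x : EuclideanSpace ℝ (Fin k)} (hx : r ≤ ‖x‖) :
    ENNReal.ofReal (‖x‖ ^ q) * g x ≤
      g (r • e) * ENNReal.ofReal (r ^ q * 2 ^ k * (8 * (q / k)) ^ q *
        Real.exp (-(k * Real.log 2 / (4 * r)) * ‖x‖)) := by
  have hk0 : (0 : ℝ) < k := by exact_mod_cast (by omega : 0 < k)
  have hq0 : (0 : ℝ) < q := by exact_mod_cast (by omega : 0 < q)
  set s := ‖x‖ / r with hs
  have hs1 : 1 ≤ s := by rwa [hs, le_div_iff₀ hr, one_mul]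
  obtain ⟨j, hj⟩ : ∃ j : ℕ, ⌊s⌋₊ = j + 1 := by
    have : 1 ≤ ⌊s⌋₊ := Nat.le_floor (by exact_mod_cast hs1)
    exact ⟨⌊s⌋₊ - 1, by omega⟩
  have hjs : ((j + 1 : ℕ) : ℝ) ≤ s := by
    rw [← hj]; exact Nat.floor_le (by linarith)
  have hsj : s < ((j + 1 : ℕ) : ℝ) + 1 := by
    rw [← hj]; exact Nat.lt_floor_add_one s
  have hxs : ‖x‖ = r * s := by rw [hs]; field_simp
  have hgx : g x ≤ g (((j + 1 : ℕ) * r) • e) := by
    refine hg.mono hk ?_
    rw [norm_smul, he, mul_one, Real.norm_of_nonneg (by positivity), hxs]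
    nlinarith
  have hdec := decay hg hk e he hr h2 j
  have hreal : ‖x‖ ^ q ≤ r ^ q * 2 ^ k * (8 * (q / k)) ^ q *
      Real.exp (-(k * Real.log 2 / (4 * r)) * ‖x‖) * (Real.sqrt 2 ^ k) ^ j := by
    have e1 : (Real.sqrt 2 ^ k) ^ j = Real.exp (Real.log 2 / 2 * (k * j)) := by
      rw [← pow_mul, ← Real.rpow_natCast, Real.sqrt_eq_rpow, ← Real.rpow_mul (by norm_num),
        Real.rpow_def_of_pos (by norm_num)]
      congr 1
      push_cast
      ring
    have e2 : (2 : ℝ) ^ k = Real.exp (Real.log 2 * k) := by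
      rw [← Real.rpow_natCast, Real.rpow_def_of_pos (by norm_num)]
    rw [e1, e2, hxs, mul_pow]
    have e3 : s ≤ 8 * (q / k) * Real.exp (Real.log 2 * (k * s) / (4 * q)) := by
      have h1 : Real.log 2 * (k * s) / (4 * q) ≤ Real.exp (Real.log 2 * (k * s) / (4 * q)) := by
        have := Real.add_one_le_exp (Real.log 2 * (k * s) / (4 * q))
        linarith
      have h3 : s ≤ 8 * (q / k) * (Real.log 2 * (k * s) / (4 * q)) := by
        have : 8 * ((q : ℝ) / k) * (Real.log 2 * (k * s) / (4 * q)) = 2 * Real.log 2 * s := by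
          field_simp
          ring
        rw [this]
        nlinarith [log_two_ge]
      exact h3.trans (by gcongr)
    have e4 : s ^ q ≤ (8 * (q / k)) ^ q * Real.exp (Real.log 2 * (k * s) / 4) := by
      have h1 := pow_le_pow_left₀ (by linarith : (0 : ℝ) ≤ s) e3 q
      rw [mul_pow, ← Real.exp_nat_mul] at h1
      have h3 : (q : ℝ) * (Real.log 2 * (k * s) / (4 * q)) = Real.log 2 * (k * s) / 4 := by
        field_simp
      rwa [h3] at h1
    have e5 : Real.exp (Real.log 2 * (k * s) / 4) ≤ Real.exp (Real.log 2 * k) *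
        Real.exp (-(k * Real.log 2 / (4 * r)) * (r * s)) * Real.exp (Real.log 2 / 2 * (k * j)) := by
      rw [← Real.exp_add, ← Real.exp_add]
      apply Real.exp_le_exp.2
      have h1 : -(k * Real.log 2 / (4 * r)) * (r * s) = -(Real.log 2 * (k * s) / 4) := by
        field_simp
      rw [h1]
      have h3 : s - 2 ≤ j := by
        push_cast at hsj; linarith
      have h4 : (0 : ℝ) ≤ Real.log 2 * k := by positivity
      nlinarith [mul_le_mul_of_nonneg_left h3 h4]
    calc r ^ q * s ^ q ≤ r ^ q * ((8 * (q / k)) ^ q * Real.exp (Real.log 2 * (k * s) / 4)) := by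
          gcongr
      _ ≤ r ^ q * ((8 * (q / k)) ^ q * (Real.exp (Real.log 2 * k) *
        Real.exp (-(k * Real.log 2 / (4 * r)) * (r * s)) *
          Real.exp (Real.log 2 / 2 * (k * j)))) := by gcongr
      _ = _ := by ring
  have hq2 : ENNReal.ofReal ((Real.sqrt 2 ^ k) ^ j) = (q2 ^ k) ^ j := by
    rw [ENNReal.ofReal_pow (by positivity), ENNReal.ofReal_pow (by positivity), q2]
  calc ENNReal.ofReal (‖x‖ ^ q) * g x
      ≤ ENNReal.ofReal (r ^ q * 2 ^ k * (8 * (q / k)) ^ q *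
      Real.exp (-(k * Real.log 2 / (4 * r)) * ‖x‖) * (Real.sqrt 2 ^ k) ^ j) *
        g (((j + 1 : ℕ) * r) • e) := by gcongr
    _ = ENNReal.ofReal (r ^ q * 2 ^ k * (8 * (q / k)) ^ q *
      Real.exp (-(k * Real.log 2 / (4 * r)) * ‖x‖)) *
        ((q2 ^ k) ^ j * g (((j + 1 : ℕ) * r) • e)) := by
        rw [ENNReal.ofReal_mul (by positivity), hq2]
        ring
    _ ≤ ENNReal.ofReal (r ^ q * 2 ^ k * (8 * (q / k)) ^ q *
      Real.exp (-(k * Real.log 2 / (4 * r)) * ‖x‖)) * g (r • e) := by gcongr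
    _ = _ := mul_comm _ _

lemma lintegral_exp_neg_norm (k : ℕ) :
    ∫⁻ x : EuclideanSpace ℝ (Fin k), ENNReal.ofReal (Real.exp (-‖x‖)) =
      ENNReal.ofReal k.factorial * volume (Metric.ball (0 : EuclideanSpace ℝ (Fin k)) 1) := by
  have h := measure_unitBall_eq_integral_div_gamma
    (volume : Measure (EuclideanSpace ℝ (Fin k))) (p := 1) one_pos
  simp only [Real.rpow_one, div_one, finrank_euclideanSpace, Fintype.card_fin,
    Real.Gamma_nat_eq_factorial] at h
  have hpos : 0 < volume (Metric.ball (0 : EuclideanSpace ℝ (Fin k)) 1) :=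
    Metric.measure_ball_pos volume _ one_pos
  have hfac : (0 : ℝ) < k.factorial := by exact_mod_cast k.factorial_pos
  have hne : ∫ x : EuclideanSpace ℝ (Fin k), Real.exp (-‖x‖) ≠ 0 := by
    intro h0
    rw [h, h0] at hpos
    simp at hpos
  have hint : Integrable (fun x : EuclideanSpace ℝ (Fin k) => Real.exp (-‖x‖)) := by
    by_contra hcon
    exact hne (integral_undef hcon)
  rw [← ofReal_integral_eq_lintegral_ofReal hint (Eventually.of_forall fun x => (Real.exp_pos _).le),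
    h, ← ENNReal.ofReal_mul hfac.le]
  congr 1
  field_simp

lemma lintegral_exp_neg_mul_norm {k : ℕ} {α : ℝ} (hα : 0 < α) :
    ∫⁻ x : EuclideanSpace ℝ (Fin k), ENNReal.ofReal (Real.exp (-α * ‖x‖)) =
      ENNReal.ofReal (k.factorial / α ^ k) *
        volume (Metric.ball (0 : EuclideanSpace ℝ (Fin k)) 1) := by
  have h1 : ∀ x : EuclideanSpace ℝ (Fin k), ENNReal.ofReal (Real.exp (-α * ‖x‖)) =
      (fun y => ENNReal.ofReal (Real.exp (-‖y‖))) (α • x) := by
    intro x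
    simp only
    rw [norm_smul, Real.norm_of_nonneg hα.le, neg_mul]
  simp_rw [h1]
  have h2 : ∫⁻ x : EuclideanSpace ℝ (Fin k), (fun y => ENNReal.ofReal (Real.exp (-‖y‖))) (α • x) =
      ∫⁻ y, ENNReal.ofReal (Real.exp (-‖y‖)) ∂(Measure.map (fun x : EuclideanSpace ℝ (Fin k) => α • x) volume) := by
    rw [lintegral_map (by fun_prop) (by fun_prop)]
  rw [h2, map_addHaar_smul volume hα.ne', lintegral_smul_measure, lintegral_exp_neg_norm,
    smul_eq_mul, ← mul_assoc, ← ENNReal.ofReal_mul (by positivity)]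
  congr 2
  rw [finrank_euclideanSpace, Fintype.card_fin, abs_of_pos (by positivity)]
  field_simp

/-- The moment bound for radial midpoint log-concave densities: if at least three quarters of the
mass lie in the ball of radius `r`, then for `q ≥ k` the `q`-th moment is at most
`(129 (q/k) r)^q` times the mass. -/
theorem moment (hg : RadLC g) (hk : 2 ≤ k) {r : ℝ} (hr : 0 < r) (hV : ∫⁻ x, g x ≠ ⊤)
    (htail : 4 * ∫⁻ x in (Metric.closedBall (0 : EuclideanSpace ℝ (Fin k)) r)ᶜ, g x ≤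
      ∫⁻ x, g x) {q : ℕ} (hq : k ≤ q) :
    ∫⁻ x, ENNReal.ofReal (‖x‖ ^ q) * g x ≤
      ENNReal.ofReal ((129 * (q / k) * r) ^ q) * ∫⁻ x, g x := by
  have hk0 : (0 : ℝ) < k := by exact_mod_cast (by omega : 0 < k)
  have hq0 : (0 : ℝ) < q := by exact_mod_cast (by omega : 0 < q)
  have hkq : (k : ℝ) ≤ q := by exact_mod_cast hq
  obtain ⟨e, -, he⟩ := exists_orth hk (0 : EuclideanSpace ℝ (Fin k)) (zero_le_one)
  have h2 := hg.step_two hk e he hr hV htail
  set ω := volume (Metric.ball (0 : EuclideanSpace ℝ (Fin k)) 1) with hω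
  set V := ∫⁻ x, g x with hVdef
  -- g(r e) * vol(B_r) ≤ V
  have h3 : g (r • e) * (ENNReal.ofReal r ^ k * ω) ≤ V := by
    calc g (r • e) * (ENNReal.ofReal r ^ k * ω)
        = ∫⁻ _ in Metric.closedBall (0 : EuclideanSpace ℝ (Fin k)) r, g (r • e) := by
          rw [setLIntegral_const, vol_closedBall hr.le]
      _ ≤ ∫⁻ x in Metric.closedBall (0 : EuclideanSpace ℝ (Fin k)) r, g x := by
          refine setLIntegral_mono' measurableSet_closedBall fun x hx => hg.mono hk ?_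
          rw [mem_closedBall_zero_iff] at hx
          rw [norm_smul, he, mul_one, Real.norm_of_nonneg hr.le]
          exact hx
      _ ≤ V := setLIntegral_le_lintegral _ _
  set α := k * Real.log 2 / (4 * r) with hα
  have hlog : 0 < Real.log 2 := Real.log_pos (by norm_num)
  have hα0 : 0 < α := by positivity
  set c := r ^ q * 2 ^ k * (8 * ((q : ℝ) / k)) ^ q with hc
  have hc0 : 0 ≤ c := by positivity
  have hpt : ∀ x : EuclideanSpace ℝ (Fin k), ENNReal.ofReal (‖x‖ ^ q) * g x ≤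
      ENNReal.ofReal (r ^ q) * g x +
        g (r • e) * ENNReal.ofReal (c * Real.exp (-α * ‖x‖)) := by
    intro x
    rcases le_total ‖x‖ r with h | h
    · refine le_trans ?_ le_self_add
      gcongr
    · refine le_trans (hg.pointwise hk e he hr h2 hq h) ?_
      exact le_add_self
  have hexp : ∫⁻ x : EuclideanSpace ℝ (Fin k), ENNReal.ofReal (c * Real.exp (-α * ‖x‖)) =
      ENNReal.ofReal (c * (k.factorial / α ^ k)) * ω := by
    calc ∫⁻ x : EuclideanSpace ℝ (Fin k), ENNReal.ofReal (c * Real.exp (-α * ‖x‖))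
        = ∫⁻ x : EuclideanSpace ℝ (Fin k), ENNReal.ofReal c *
            ENNReal.ofReal (Real.exp (-α * ‖x‖)) := by
          refine lintegral_congr fun x => ?_
          rw [ENNReal.ofReal_mul hc0]
      _ = _ := by
          rw [lintegral_const_mul' _ _ ENNReal.ofReal_ne_top, lintegral_exp_neg_mul_norm hα0,
            ENNReal.ofReal_mul hc0, mul_assoc]
  have hreal : c * (k.factorial / α ^ k) ≤ (128 * ((q : ℝ) / k) * r) ^ q * r ^ k := by
    have e1 : (k.factorial : ℝ) ≤ (k : ℝ) ^ k := by exact_mod_cast k.factorial_le_pow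
    have e2 : (k.factorial : ℝ) / α ^ k ≤ (8 * r) ^ k := by
      rw [div_le_iff₀ (by positivity), ← mul_pow]
      refine e1.trans (pow_le_pow_left₀ hk0.le ?_ k)
      rw [hα]
      have : 8 * r * (k * Real.log 2 / (4 * r)) = 2 * Real.log 2 * k := by
        field_simp
        ring
      rw [this]
      nlinarith [log_two_ge]
    have e3 : (16 : ℝ) ^ k ≤ 16 ^ q := pow_le_pow_right₀ (by norm_num) hq
    calc c * (k.factorial / α ^ k) ≤ c * (8 * r) ^ k := by gcongr
      _ = (16 : ℝ) ^ k * ((8 * ((q : ℝ) / k)) ^ q * r ^ q) * r ^ k := by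
          rw [hc, mul_pow 8 r k, show (16 : ℝ) = 2 * 8 by norm_num, mul_pow 2 8 k]
          ring
      _ ≤ (16 : ℝ) ^ q * ((8 * ((q : ℝ) / k)) ^ q * r ^ q) * r ^ k := by gcongr
      _ = _ := by
          rw [← mul_pow, ← mul_pow]
          congr 2
          ring
  calc ∫⁻ x, ENNReal.ofReal (‖x‖ ^ q) * g x
      ≤ ∫⁻ x, (ENNReal.ofReal (r ^ q) * g x +
        g (r • e) * ENNReal.ofReal (c * Real.exp (-α * ‖x‖))) := lintegral_mono hpt
    _ = ENNReal.ofReal (r ^ q) * V + g (r • e) * (ENNReal.ofReal (c * (k.factorial / α ^ k)) * ω) := by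
        rw [lintegral_add_left (hg.meas.const_mul _), lintegral_const_mul' _ _ ENNReal.ofReal_ne_top,
          lintegral_const_mul' _ _ (ne_top_of_le_ne_top hg.fin (hg.le_zero hk _)), hexp]
    _ ≤ ENNReal.ofReal (r ^ q) * V +
        g (r • e) * (ENNReal.ofReal ((128 * ((q : ℝ) / k) * r) ^ q * r ^ k) * ω) := by gcongr
    _ = ENNReal.ofReal (r ^ q) * V + ENNReal.ofReal ((128 * ((q : ℝ) / k) * r) ^ q) *
        (g (r • e) * (ENNReal.ofReal r ^ k * ω)) := by
        rw [ENNReal.ofReal_mul (by positivity), ENNReal.ofReal_pow hr.le k]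
        ring
    _ ≤ ENNReal.ofReal (r ^ q) * V + ENNReal.ofReal ((128 * ((q : ℝ) / k) * r) ^ q) * V := by
        gcongr
    _ = ENNReal.ofReal (r ^ q + (128 * ((q : ℝ) / k) * r) ^ q) * V := by
        rw [ENNReal.ofReal_add (by positivity) (by positivity), add_mul]
    _ ≤ ENNReal.ofReal ((129 * ((q : ℝ) / k) * r) ^ q) * V := by
        gcongr
        have hqk : 1 ≤ (q : ℝ) / k := by rwa [one_le_div hk0]
        have e1 : r ≤ (q : ℝ) / k * r := le_mul_of_one_le_left hr.le hqk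
        calc r ^ q + (128 * ((q : ℝ) / k) * r) ^ q
            ≤ ((q : ℝ) / k * r) ^ q + (128 * ((q : ℝ) / k) * r) ^ q := by gcongr
          _ ≤ ((q : ℝ) / k * r + 128 * ((q : ℝ) / k) * r) ^ q :=
              pow_add_pow_le (by positivity) (by positivity) (by omega)
          _ = _ := by congr 1; ring

end RadLC

end Pool.Agent.H69.KLS
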