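import Mathlib
import Pool.Agent.H84.PrekopaLeindler
import Pool.Agent.H69.KLS.Radial

/-!
Module M7, first part: the one-row estimate.
-/

open MeasureTheory Measure Set Filter Topology
open scoped ENNReal NNReal Real

namespace Pool.Agent.H69.KLS

/-- Brunn-Minkowski (multiplicative midpoint form) for sections -/
lemma mid_section' {G F : Type*} [NormedAddCommGroup G] [InnerProductSpace ℝ G]
    [MeasurableSpace G] [NormedAddCommGroup F] [InnerProductSpace ℝ F]
    [FiniteDimensional ℝ F] [MeasurableSpace F] [BorelSpace F] {Ω : Set (G × F)}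
    (hΩ : MeasurableSet Ω) (hconv : Convex ℝ Ω) (x y : G) :
    volume (Prod.mk x ⁻¹' Ω) * volume (Prod.mk y ⁻¹' Ω) ≤
      volume (Prod.mk ((2 : ℝ)⁻¹ • (x + y)) ⁻¹' Ω) ^ 2 := by
  have hm : ∀ t : G, MeasurableSet (Prod.mk t ⁻¹' Ω) := fun t => measurable_prodMk_left hΩ
  have h := Pool.Agent.H84.pl_inner F ((Prod.mk x ⁻¹' Ω).indicator 1)
    ((Prod.mk y ⁻¹' Ω).indicator 1) ((Prod.mk ((2 : ℝ)⁻¹ • (x + y)) ⁻¹' Ω).indicator 1)
    (measurable_one.indicator (hm _)) (measurable_one.indicator (hm _))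
    (measurable_one.indicator (hm _)) (by
      intro a b
      by_cases ha : a ∈ Prod.mk x ⁻¹' Ω
      · by_cases hb : b ∈ Prod.mk y ⁻¹' Ω
        · have hc : (2 : ℝ)⁻¹ • (a + b) ∈ Prod.mk ((2 : ℝ)⁻¹ • (x + y)) ⁻¹' Ω := by
            have := hconv ha hb (show (0 : ℝ) ≤ 2⁻¹ by norm_num) (show (0 : ℝ) ≤ 2⁻¹ by norm_num)
              (by norm_num)
            rw [Prod.smul_mk, Prod.smul_mk, Prod.mk_add_mk, ← smul_add, ← smul_add] at this
            exact this
          rw [indicator_of_mem ha, indicator_of_mem hb, indicator_of_mem hc]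
          simp
        · simp [indicator_of_notMem hb]
      · simp [indicator_of_notMem ha])
  rwa [lintegral_indicator_one (hm _), lintegral_indicator_one (hm _),
    lintegral_indicator_one (hm _)] at h

section

variable {k : ℕ} {E : Type*} [NormedAddCommGroup E] [InnerProductSpace ℝ E]
  [FiniteDimensional ℝ E] [MeasurableSpace E] [BorelSpace E]
  (S : EuclideanSpace ℝ (Fin k) →ₗᵢ[ℝ] E) (T : E →ₗ[ℝ] EuclideanSpace ℝ (Fin k))
  (hST : ∀ x z, inner ℝ (S x) z = inner ℝ x (T z))

include hST

omit [FiniteDimensional ℝ E] [MeasurableSpace E] [BorelSpace E] in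
lemma T_S (x : EuclideanSpace ℝ (Fin k)) : T (S x) = x := by
  refine ext_inner_left ℝ fun v => ?_
  rw [← hST, S.inner_map_map]

omit [FiniteDimensional ℝ E] [MeasurableSpace E] [BorelSpace E] in
/-- the range of `S` -/
lemma proj_range (z : E) :
    ((LinearMap.range S.toLinearMap).starProjection z : E) = S (T z) := by
  refine Submodule.eq_starProjection_of_mem_of_inner_eq_zero (LinearMap.mem_range_self _ _) ?_
  rintro _ ⟨x, rfl⟩
  change inner ℝ (z - S (T z)) (S x) = 0
  rw [inner_sub_left, S.inner_map_map, real_inner_comm, hST, real_inner_comm, sub_self]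

/-- The one-row estimate. -/
theorem one_row (hk : 2 ≤ k) {K : Set E} (hKm : MeasurableSet K) (hKc : Convex ℝ K)
    (hKb : Bornology.IsBounded K)
    (hinv : ∀ x y : EuclideanSpace ℝ (Fin k), ‖x‖ = ‖y‖ → ∃ U : E ≃ₗᵢ[ℝ] E, (∀ z ∈ K, U z ∈ K) ∧
      ∃ O : EuclideanSpace ℝ (Fin k) ≃ₗᵢ[ℝ] EuclideanSpace ℝ (Fin k), O x = y ∧
        ∀ z, T (U z) = O (T z))
    {r : ℝ} (hr : 0 < r) (htail : 4 * volume {z ∈ K | r < ‖T z‖} ≤ volume K)
    {q : ℕ} (hq : k ≤ q) :
    ∫⁻ z in K, ENNReal.ofReal (‖T z‖ ^ q) ≤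
      ENNReal.ofReal ((129 * (q / k) * r) ^ q) * volume K := by
  set s : Submodule ℝ E := LinearMap.range S.toLinearMap with hs
  have hTS := T_S S T hST
  have hproj := proj_range S T hST
  -- the isometry from the range of `S` to `ℝ^k`
  let eS : s ≃ₗᵢ[ℝ] EuclideanSpace ℝ (Fin k) :=
    { toLinearEquiv := LinearEquiv.ofLinearMap (T.comp s.subtype)
        (S.toLinearMap.codRestrict s fun x => LinearMap.mem_range_self _ x)
        (by ext1 x; exact hTS x)
        (by
          apply LinearMap.ext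
          rintro ⟨_, x, rfl⟩
          apply Subtype.ext
          change S (T (S x)) = S x
          rw [hTS])
      norm_map' := by
        rintro ⟨_, x, rfl⟩
        change ‖T (S x)‖ = ‖S x‖
        rw [hTS, S.norm_map] }
  let Φ : E → EuclideanSpace ℝ (Fin k) × sᗮ := fun z => (T z, sᗮ.orthogonalProjectionOnto z)
  let Ψ : EuclideanSpace ℝ (Fin k) × sᗮ → E := fun p => S p.1 + p.2
  have hΦ : MeasurePreserving Φ volume (volume.prod volume) := by
    have h1 := s.orthogonalDecomposition.measurePreserving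
    have h2 := WithLp.volume_preserving_ofLp s sᗮ
    have h3 := (eS.measurePreserving).prod (MeasurePreserving.id (volume : Measure sᗮ))
    have h4 := h3.comp (h2.comp h1)
    have hfun : Φ = Prod.map eS id ∘ WithLp.ofLp ∘ s.orthogonalDecomposition := by
      funext z
      refine Prod.ext ?_ ?_
      · change T z = T ((s.orthogonalDecomposition z).fst : E)
        rw [Submodule.fst_orthogonalDecomposition_apply]
        have := hproj z
        rw [Submodule.starProjection_apply] at this
        rw [this, hTS]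
      · change _ = (s.orthogonalDecomposition z).snd
        rw [Submodule.snd_orthogonalDecomposition_apply]
    rw [hfun]
    exact h4
  have hΨΦ : ∀ z, Ψ (Φ z) = z := by
    intro z
    change S (T z) + (sᗮ.orthogonalProjectionOnto z : E) = z
    rw [← hproj z]
    exact Submodule.starProjection_add_starProjection_orthogonal z
  -- the kernel of `T` is the orthogonal complement of the range of `S`
  have hker : ∀ z : E, z ∈ sᗮ ↔ T z = 0 := by
    intro z
    constructor
    · intro hz
      refine ext_inner_left ℝ fun v => ?_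
      rw [← hST, inner_zero_right]
      exact hz _ (LinearMap.mem_range_self _ v)
    · intro hz
      rintro _ ⟨x, rfl⟩
      change inner ℝ (S x) z = 0
      rw [hST, hz, inner_zero_right]
  have hTΨ : ∀ p, T (Ψ p) = p.1 := by
    intro p
    change T (S p.1 + p.2) = p.1
    rw [map_add, hTS, (hker _).1 p.2.2, add_zero]
  have hΨn : ∀ p, ‖Ψ p‖ ^ 2 = ‖p.1‖ ^ 2 + ‖p.2‖ ^ 2 := by
    intro p
    change ‖S p.1 + (p.2 : E)‖ ^ 2 = _
    rw [norm_add_sq_real, S.norm_map, hST, (hker _).1 p.2.2, inner_zero_right]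
    simp
  have hΨcont : Continuous Ψ := by
    change Continuous fun p : EuclideanSpace ℝ (Fin k) × sᗮ => S p.1 + (p.2 : E)
    exact (S.continuous.comp continuous_fst).add (continuous_subtype_val.comp continuous_snd)
  have hTcont : Continuous T := LinearMap.continuous_of_finiteDimensional T
  have hΨlin : ∀ (c d : ℝ) (p p' : EuclideanSpace ℝ (Fin k) × sᗮ),
      Ψ (c • p + d • p') = c • Ψ p + d • Ψ p' := by
    intro c d p p'
    change S (c • p.1 + d • p'.1) + ((c • p.2 + d • p'.2 : sᗮ) : E) =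
      c • (S p.1 + p.2) + d • (S p'.1 + p'.2)
    rw [map_add, map_smul, map_smul, Submodule.coe_add, Submodule.coe_smul, Submodule.coe_smul,
      smul_add, smul_add]
    abel
  set K' : Set (EuclideanSpace ℝ (Fin k) × sᗮ) := Ψ ⁻¹' K with hK'
  have hK'm : MeasurableSet K' := hΨcont.measurable hKm
  have hK'c : Convex ℝ K' := by
    intro p hp p' hp' c d hc hd hcd
    change Ψ _ ∈ K
    rw [hΨlin]
    exact hKc hp hp' hc hd hcd
  have hpre : Φ ⁻¹' K' = K := by
    ext z
    change Ψ (Φ z) ∈ K ↔ _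
    rw [hΨΦ]
  let g : EuclideanSpace ℝ (Fin k) → ℝ≥0∞ := fun x => volume (Prod.mk x ⁻¹' K')
  have hgm : Measurable g := measurable_measure_prodMk_left hK'm
  obtain ⟨R, hR⟩ := hKb.subset_closedBall (0 : E)
  have hg0 : g 0 ≠ ⊤ := by
    have hsub : Prod.mk (0 : EuclideanSpace ℝ (Fin k)) ⁻¹' K' ⊆ Metric.closedBall (0 : sᗮ) R := by
      intro y hy
      have h1 : Ψ (0, y) ∈ K := hy
      have h2 := hR h1
      rw [mem_closedBall_zero_iff] at h2 ⊢
      have h3 := hΨn (0, y)
      simp only [norm_zero, ne_eq, OfNat.ofNat_ne_zero, not_false_eq_true, zero_pow,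
        zero_add] at h3
      rw [sq_eq_sq₀ (norm_nonneg _) (norm_nonneg _)] at h3
      rwa [← h3]
    exact ne_top_of_le_ne_top measure_closedBall_lt_top.ne (measure_mono hsub)
  have hrad : ∀ x y, ‖x‖ = ‖y‖ → g x ≤ g y := by
    intro x y hxy
    obtain ⟨U, hUK, O, hO, hTU⟩ := hinv x y hxy
    -- U maps S x to S y
    have hUS : U (S x) = S y := by
      have h1 : T (U (S x)) = y := by rw [hTU, hTS, hO]
      have h2 := hΨn (Φ (U (S x)))
      rw [hΨΦ, U.norm_map, S.norm_map] at h2
      change ‖x‖ ^ 2 = ‖T (U (S x))‖ ^ 2 + ‖(Φ (U (S x))).2‖ ^ 2 at h2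
      rw [h1, hxy] at h2
      have h3 : (Φ (U (S x))).2 = 0 := by
        have : ‖(Φ (U (S x))).2‖ ^ 2 = 0 := by linarith
        exact norm_eq_zero.1 (pow_eq_zero_iff two_ne_zero |>.1 this)
      have h4 := hΨΦ (U (S x))
      change S (T (U (S x))) + ((Φ (U (S x))).2 : E) = U (S x) at h4
      rw [h1, h3] at h4
      simpa using h4.symm
    have hUF : ∀ z : sᗮ, U z ∈ sᗮ := by
      intro z
      rw [hker, hTU, (hker _).1 z.2, map_zero]
    let V0 : sᗮ →ₗᵢ[ℝ] sᗮ :=
      { toLinearMap := (U.toLinearEquiv.toLinearMap.comp sᗮ.subtype).codRestrict sᗮ hUF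
        norm_map' := fun z => U.norm_map z }
    let V : sᗮ ≃ₗᵢ[ℝ] sᗮ := V0.toLinearIsometryEquiv rfl
    have hV : MeasurePreserving V volume volume := V.measurePreserving
    have hsub : Prod.mk x ⁻¹' K' ⊆ V ⁻¹' (Prod.mk y ⁻¹' K') := by
      intro z hz
      have h1 : S x + (z : E) ∈ K := hz
      change S y + ((V z : sᗮ) : E) ∈ K
      have h2 : ((V z : sᗮ) : E) = U z := rfl
      rw [h2, ← hUS, ← map_add]
      exact hUK _ h1
    calc g x ≤ volume (V ⁻¹' (Prod.mk y ⁻¹' K')) := measure_mono hsub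
      _ = g y := hV.measure_preimage (measurable_prodMk_left hK'm).nullMeasurableSet
  have hg : RadLC g :=
    { meas := hgm
      mid := fun x y => mid_section' hK'm hK'c x y
      rad := fun x y h => le_antisymm (hrad x y h) (hrad y x h.symm)
      fin := hg0 }
  -- integrals over `K` of functions of `T z`
  have hint : ∀ f : EuclideanSpace ℝ (Fin k) → ℝ≥0∞, Measurable f →
      ∫⁻ z in K, f (T z) = ∫⁻ x, f x * g x := by
    intro f hf
    have h1 : ∫⁻ z in K, f (T z) =
        ∫⁻ p in K', f p.1 ∂((volume : Measure (EuclideanSpace ℝ (Fin k))).prod volume) := by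
      rw [← hΦ.setLIntegral_comp_preimage hK'm (by fun_prop), hpre]
    rw [h1, ← lintegral_indicator hK'm, lintegral_prod _ (by
      apply Measurable.aemeasurable
      exact (by fun_prop : Measurable fun p : EuclideanSpace ℝ (Fin k) × sᗮ => f p.1).indicator
        hK'm)]
    refine lintegral_congr fun x => ?_
    have hm : MeasurableSet (Prod.mk x ⁻¹' K') := measurable_prodMk_left hK'm
    change _ = f x * volume (Prod.mk x ⁻¹' K')
    rw [← lintegral_indicator_one hm, ← lintegral_const_mul _ (measurable_one.indicator hm)]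
    refine lintegral_congr fun y => ?_
    by_cases hy : (x, y) ∈ K'
    · rw [indicator_of_mem hy, indicator_of_mem (show y ∈ Prod.mk x ⁻¹' K' from hy)]
      simp
    · rw [indicator_of_notMem hy, indicator_of_notMem (show y ∉ Prod.mk x ⁻¹' K' from hy)]
      simp
  have hvol : ∫⁻ x, g x = volume K := by
    have := hint (fun _ => 1) measurable_const
    simpa using this.symm
  have hKfin : volume K ≠ ⊤ := hKb.measure_lt_top.ne
  have htail' : 4 * ∫⁻ x in (Metric.closedBall (0 : EuclideanSpace ℝ (Fin k)) r)ᶜ, g x ≤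
      ∫⁻ x, g x := by
    have hBm : MeasurableSet ((Metric.closedBall (0 : EuclideanSpace ℝ (Fin k)) r)ᶜ) :=
      measurableSet_closedBall.compl
    have h1 := hint ((Metric.closedBall (0 : EuclideanSpace ℝ (Fin k)) r)ᶜ.indicator 1)
      (measurable_one.indicator hBm)
    have h2 : ∫⁻ x, (Metric.closedBall (0 : EuclideanSpace ℝ (Fin k)) r)ᶜ.indicator 1 x * g x =
        ∫⁻ x in (Metric.closedBall (0 : EuclideanSpace ℝ (Fin k)) r)ᶜ, g x := by
      rw [← lintegral_indicator hBm]
      refine lintegral_congr fun x => ?_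
      by_cases hx : x ∈ (Metric.closedBall (0 : EuclideanSpace ℝ (Fin k)) r)ᶜ
      · rw [indicator_of_mem hx, indicator_of_mem hx]; simp
      · rw [indicator_of_notMem hx, indicator_of_notMem hx]; simp
    have h3 : ∫⁻ z in K, (Metric.closedBall (0 : EuclideanSpace ℝ (Fin k)) r)ᶜ.indicator 1 (T z) =
        volume {z ∈ K | r < ‖T z‖} := by
      have hm2 : MeasurableSet (T ⁻¹' (Metric.closedBall (0 : EuclideanSpace ℝ (Fin k)) r)ᶜ) :=
        hTcont.measurable hBm
      have h4 : ∀ z, (Metric.closedBall (0 : EuclideanSpace ℝ (Fin k)) r)ᶜ.indicator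
          (1 : EuclideanSpace ℝ (Fin k) → ℝ≥0∞) (T z) =
          (T ⁻¹' (Metric.closedBall (0 : EuclideanSpace ℝ (Fin k)) r)ᶜ).indicator 1 z := by
        intro z
        by_cases hz : T z ∈ (Metric.closedBall (0 : EuclideanSpace ℝ (Fin k)) r)ᶜ
        · rw [indicator_of_mem hz, indicator_of_mem (show z ∈ T ⁻¹'
            (Metric.closedBall (0 : EuclideanSpace ℝ (Fin k)) r)ᶜ from hz)]
          simp
        · rw [indicator_of_notMem hz, indicator_of_notMem (show z ∉ T ⁻¹'
            (Metric.closedBall (0 : EuclideanSpace ℝ (Fin k)) r)ᶜ from hz)]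
      simp_rw [h4]
      rw [lintegral_indicator_one hm2, Measure.restrict_apply hm2]
      congr 1
      ext z
      simp only [mem_inter_iff, mem_preimage, mem_compl_iff, mem_closedBall_zero_iff, not_le]
      constructor
      · rintro ⟨h, h'⟩; exact ⟨h', h⟩
      · rintro ⟨h, h'⟩; exact ⟨h', h⟩
    rw [← h2, ← h1, h3, hvol]
    exact htail
  have hmom := hg.moment hk hr (by rw [hvol]; exact hKfin) htail' hq
  rw [hvol, ← hint (fun x => ENNReal.ofReal (‖x‖ ^ q)) (by fun_prop)] at hmom
  exact hmom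

end

end Pool.Agent.H69.KLS
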