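import Mathlib
import Pool.Agent.H69.KLS.Radial

/-!
Transitivity of `SO(k)` on spheres, `k ≥ 2`.
-/

open Matrix

namespace Pool.Agent.H69.KLS

variable {k : ℕ}

/-- the reflection in the hyperplane orthogonal to the unit vector `w` -/
noncomputable def refl (w : Fin k → ℝ) : Matrix (Fin k) (Fin k) ℝ :=
  1 - (2 : ℝ) • Matrix.vecMulVec w w

lemma refl_mulVec (w x : Fin k → ℝ) : refl w *ᵥ x = x - (2 * (w ⬝ᵥ x)) • w := by
  rw [refl, Matrix.sub_mulVec, Matrix.one_mulVec, Matrix.smul_mulVec, Matrix.vecMulVec_mulVec]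
  ext i
  simp only [Pi.sub_apply, Pi.smul_apply, smul_eq_mul, MulOpposite.smul_eq_mul_unop,
    MulOpposite.unop_op]
  ring

lemma refl_transpose (w : Fin k → ℝ) : (refl w)ᵀ = refl w := by
  rw [refl, Matrix.transpose_sub, Matrix.transpose_one, Matrix.transpose_smul,
    Matrix.transpose_vecMulVec]

lemma refl_mul_transpose (w : Fin k → ℝ) (hw : w ⬝ᵥ w = 1) : refl w * (refl w)ᵀ = 1 := by
  have hV : Matrix.vecMulVec w w * Matrix.vecMulVec w w = Matrix.vecMulVec w w := by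
    rw [Matrix.vecMulVec_mul_vecMulVec, hw, one_smul]
  rw [refl_transpose, refl]
  simp only [sub_mul, mul_sub, one_mul, mul_one, Matrix.smul_mul, Matrix.mul_smul, hV, smul_smul]
  module

lemma refl_det (w : Fin k → ℝ) (hw : w ⬝ᵥ w = 1) : (refl w).det = -1 := by
  have h1 : refl w = 1 + Matrix.replicateCol Unit (-(2 : ℝ) • w) * Matrix.replicateRow Unit w := by
    ext i j
    simp [refl, Matrix.vecMulVec, Matrix.mul_apply]
    ring
  rw [h1, Matrix.det_one_add_replicateCol_mul_replicateRow, dotProduct_smul, hw]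
  norm_num

/-- `SO(k)` is transitive on spheres for `k ≥ 2`. -/
theorem exists_SO (hk : 2 ≤ k) (x y : EuclideanSpace ℝ (Fin k)) (h : ‖x‖ = ‖y‖) :
    ∃ A : Matrix (Fin k) (Fin k) ℝ, A * Aᵀ = 1 ∧ A.det = 1 ∧ A *ᵥ x.ofLp = y.ofLp := by
  have hdot : ∀ u v : EuclideanSpace ℝ (Fin k), inner ℝ u v = u.ofLp ⬝ᵥ v.ofLp := by
    intro u v
    simp only [PiLp.inner_apply, RCLike.inner_apply, conj_trivial, dotProduct]
    exact Finset.sum_congr rfl fun _ _ => mul_comm _ _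
  rcases eq_or_ne x y with rfl | hxy
  · exact ⟨1, by simp, by simp, by simp⟩
  have hd0 : 0 < ‖x - y‖ := norm_pos_iff.2 (sub_ne_zero.2 hxy)
  set u : EuclideanSpace ℝ (Fin k) := (‖x - y‖)⁻¹ • (x - y) with hu
  have hun : ‖u‖ = 1 := by rw [hu, norm_smul, norm_inv, norm_norm, inv_mul_cancel₀ hd0.ne']
  obtain ⟨w, hw, hwn⟩ := RadLC.exists_orth hk y zero_le_one
  have huu : u.ofLp ⬝ᵥ u.ofLp = 1 := by
    rw [← hdot, real_inner_self_eq_norm_sq, hun, one_pow]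
  have hww : w.ofLp ⬝ᵥ w.ofLp = 1 := by
    rw [← hdot, real_inner_self_eq_norm_sq, hwn, one_pow]
  have h1 : refl u.ofLp *ᵥ x.ofLp = y.ofLp := by
    rw [refl_mulVec, ← hdot]
    have h2 : inner ℝ u x = (‖x - y‖)⁻¹ * (‖x - y‖ ^ 2 / 2) := by
      rw [hu, real_inner_smul_left, inner_sub_left, real_inner_self_eq_norm_sq]
      congr 1
      have := norm_sub_sq_real x y
      rw [this, h, real_inner_comm]
      ring
    have h3 : y = x - (2 * inner ℝ u x) • u := by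
      rw [h2, hu, smul_smul]
      have : 2 * ((‖x - y‖)⁻¹ * (‖x - y‖ ^ 2 / 2)) * (‖x - y‖)⁻¹ = 1 := by
        field_simp
      rw [this, one_smul]
      abel
    conv_rhs => rw [h3]
    rfl
  have h2 : refl w.ofLp *ᵥ y.ofLp = y.ofLp := by
    rw [refl_mulVec, ← hdot, real_inner_comm, hw, mul_zero, zero_smul, sub_zero]
  refine ⟨refl w.ofLp * refl u.ofLp, ?_, ?_, ?_⟩
  · rw [Matrix.transpose_mul, ← mul_assoc, mul_assoc (refl w.ofLp), refl_mul_transpose _ huu,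
      mul_one, refl_mul_transpose _ hww]
  · rw [Matrix.det_mul, refl_det _ hww, refl_det _ huu]
    norm_num
  · rw [← Matrix.mulVec_mulVec, h1, h2]

/-- an orthogonal matrix as a linear isometry equivalence of `ℝ^k` -/
noncomputable def orthLI (A : Matrix (Fin k) (Fin k) ℝ) (hA : A * Aᵀ = 1) :
    EuclideanSpace ℝ (Fin k) ≃ₗᵢ[ℝ] EuclideanSpace ℝ (Fin k) where
  toFun x := WithLp.toLp 2 (A *ᵥ x.ofLp)
  invFun x := WithLp.toLp 2 (Aᵀ *ᵥ x.ofLp)
  map_add' x y := by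
    rw [WithLp.ofLp_add, Matrix.mulVec_add]; rfl
  map_smul' c x := by
    rw [WithLp.ofLp_smul, Matrix.mulVec_smul]; rfl
  left_inv x := by
    change WithLp.toLp 2 (Aᵀ *ᵥ (A *ᵥ x.ofLp)) = x
    rw [Matrix.mulVec_mulVec, mul_eq_one_comm.1 hA, Matrix.one_mulVec]
  right_inv x := by
    change WithLp.toLp 2 (A *ᵥ (Aᵀ *ᵥ x.ofLp)) = x
    rw [Matrix.mulVec_mulVec, hA, Matrix.one_mulVec]
  norm_map' x := by
    have hdot : ∀ u : Fin k → ℝ, ‖(WithLp.toLp 2 u : EuclideanSpace ℝ (Fin k))‖ ^ 2 = u ⬝ᵥ u := by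
      intro u
      rw [EuclideanSpace.real_norm_sq_eq]
      simp [dotProduct, sq]
    change ‖(WithLp.toLp 2 (A *ᵥ x.ofLp) : EuclideanSpace ℝ (Fin k))‖ = ‖x‖
    rw [← sq_eq_sq₀ (norm_nonneg _) (norm_nonneg _), hdot]
    have h2 := hdot x.ofLp
    rw [WithLp.toLp_ofLp] at h2
    rw [h2, Matrix.dotProduct_mulVec, ← Matrix.mulVec_transpose, Matrix.mulVec_mulVec,
      mul_eq_one_comm.1 hA, Matrix.one_mulVec]

lemma orthLI_apply (A : Matrix (Fin k) (Fin k) ℝ) (hA : A * Aᵀ = 1)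
    (x : EuclideanSpace ℝ (Fin k)) : orthLI A hA x = WithLp.toLp 2 (A *ᵥ x.ofLp) := rfl

end Pool.Agent.H69.KLS
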