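import Mathlib
import Pool.Agent.H97.KlsDefs
import Pool.Agent.H69.KLS.OneRow
import Pool.Agent.H69.KLS.Gauss

/-!
Module M7: the tail of the operator norm of a random matrix with a right-rotation-invariant
log-concave (uniform on a convex body) distribution.
-/

open MeasureTheory Measure Set Filter Topology ProbabilityTheory
open scoped ENNReal NNReal Real
open Pool.H97.KLS

namespace Pool.Agent.H69.KLS

/-- `outer u x = u xᵀ` -/
noncomputable def outer {m k : ℕ} (u : EuclideanSpace ℝ (Fin m)) :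
    EuclideanSpace ℝ (Fin k) →ₗ[ℝ] Mat m k where
  toFun x := WithLp.toLp 2 (fun p => u p.1 * x p.2)
  map_add' x y := by ext p; simp [mul_add]
  map_smul' c x := by ext p; simp; ring

/-- `rowComb` as a linear map -/
noncomputable def rowL {m k : ℕ} (u : EuclideanSpace ℝ (Fin m)) :
    Mat m k →ₗ[ℝ] EuclideanSpace ℝ (Fin k) where
  toFun X := rowComb u X
  map_add' X Y := by ext j; simp [mul_add, Finset.sum_add_distrib]
  map_smul' c X := by
    ext j
    simp only [rowComb_apply, PiLp.smul_apply, smul_eq_mul, RingHom.id_apply, Finset.mul_sum]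
    exact Finset.sum_congr rfl fun _ _ => by ring

lemma rowL_apply {m k : ℕ} (u : EuclideanSpace ℝ (Fin m)) (X : Mat m k) :
    rowL u X = rowComb u X := rfl

lemma inner_outer {m k : ℕ} (u : EuclideanSpace ℝ (Fin m)) (x : EuclideanSpace ℝ (Fin k))
    (Y : Mat m k) : inner ℝ (outer u x) Y = inner ℝ x (rowComb u Y) := by
  simp only [PiLp.inner_apply, RCLike.inner_apply, conj_trivial, rowComb_apply,
    Fintype.sum_prod_type, Finset.sum_mul]
  rw [Finset.sum_comm]
  refine Finset.sum_congr rfl fun j _ => Finset.sum_congr rfl fun i _ => ?_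
  change Y (i, j) * (u i * x j) = _
  ring

lemma norm_outer {m k : ℕ} (u : EuclideanSpace ℝ (Fin m)) (x : EuclideanSpace ℝ (Fin k)) :
    ‖(outer u x : Mat m k)‖ = ‖u‖ * ‖x‖ := by
  rw [EuclideanSpace.norm_eq, EuclideanSpace.norm_eq u, EuclideanSpace.norm_eq x,
    ← Real.sqrt_mul (Finset.sum_nonneg fun _ _ => sq_nonneg _)]
  congr 1
  rw [Fintype.sum_prod_type, Finset.sum_mul_sum]
  refine Finset.sum_congr rfl fun i _ => Finset.sum_congr rfl fun j _ => ?_
  change ‖u i * x j‖ ^ 2 = _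
  rw [norm_mul, mul_pow]

lemma rowComb_smul_left {m k : ℕ} (c : ℝ) (u : EuclideanSpace ℝ (Fin m)) (X : Mat m k) :
    rowComb (c • u) X = c • rowComb u X := by
  ext j
  simp only [rowComb_apply, PiLp.smul_apply, smul_eq_mul, Finset.mul_sum]
  exact Finset.sum_congr rfl fun _ _ => by ring

lemma continuous_rowComb {m k : ℕ} :
    Continuous fun p : EuclideanSpace ℝ (Fin m) × Mat m k => rowComb p.1 p.2 := by
  refine (PiLp.continuous_toLp 2 _).comp ?_
  refine continuous_pi fun j => ?_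
  refine continuous_finsetSum _ fun i _ => ?_
  fun_prop

/-- `X z = ` the combination of the columns: the vector `w` with `⟨rowComb g X, z⟩ = ⟨w, g⟩`. -/
noncomputable def colComb {m k : ℕ} (z : EuclideanSpace ℝ (Fin k)) (X : Mat m k) :
    EuclideanSpace ℝ (Fin m) :=
  WithLp.toLp 2 (fun i => ∑ j, X (i, j) * z j)

lemma inner_rowComb {m k : ℕ} (g : EuclideanSpace ℝ (Fin m)) (z : EuclideanSpace ℝ (Fin k))
    (X : Mat m k) : inner ℝ (rowComb g X) z = inner ℝ (colComb z X) g := by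
  simp only [PiLp.inner_apply, RCLike.inner_apply, conj_trivial, rowComb_apply, Finset.mul_sum]
  rw [Finset.sum_comm]
  refine Finset.sum_congr rfl fun i _ => ?_
  change _ = g i * ∑ j, X (i, j) * z j
  rw [Finset.mul_sum]
  refine Finset.sum_congr rfl fun j _ => by ring

/-- the Gaussian average dominates every row combination -/
lemma gauss_row_lower {m k q : ℕ} (hq : 2 ≤ q) (X : Mat m k) (v : EuclideanSpace ℝ (Fin m))
    {R : ℝ} (hR : 0 ≤ R) (hv : R * ‖v‖ < ‖rowComb v X‖) :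
    ENNReal.ofReal ((Real.sqrt q / 7 * R) ^ q) ≤
      ∫⁻ g, ENNReal.ofReal (‖rowComb g X‖ ^ q) ∂(stdGaussian (EuclideanSpace ℝ (Fin m))) := by
  set y := rowComb v X with hy
  have hy0 : 0 < ‖y‖ := lt_of_le_of_lt (by positivity) hv
  set z := (‖y‖)⁻¹ • y with hz
  have hzn : ‖z‖ = 1 := by rw [hz, norm_smul, norm_inv, norm_norm, inv_mul_cancel₀ hy0.ne']
  have hyz : inner ℝ y z = ‖y‖ := by
    rw [hz, inner_smul_right, real_inner_self_eq_norm_sq]
    field_simp
  set w := colComb z X with hw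
  have hwR : R ≤ ‖w‖ := by
    have h1 : inner ℝ w v = ‖y‖ := by rw [hw, ← inner_rowComb, ← hy, hyz]
    have h2 : ‖y‖ ≤ ‖w‖ * ‖v‖ := by rw [← h1]; exact real_inner_le_norm w v
    have h3 : R * ‖v‖ < ‖w‖ * ‖v‖ := hv.trans_le h2
    exact (lt_of_mul_lt_mul_right h3 (norm_nonneg v)).le
  calc ENNReal.ofReal ((Real.sqrt q / 7 * R) ^ q)
      ≤ ENNReal.ofReal ((Real.sqrt q / 7 * ‖w‖) ^ q) := by
        apply ENNReal.ofReal_le_ofReal
        gcongr
    _ ≤ ∫⁻ g, ENNReal.ofReal (|inner ℝ w g| ^ q) ∂(stdGaussian (EuclideanSpace ℝ (Fin m))) :=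
        gauss_inner_moment hq w
    _ ≤ _ := by
        refine lintegral_mono fun g => ?_
        apply ENNReal.ofReal_le_ofReal
        apply pow_le_pow_left₀ (abs_nonneg _)
        rw [hw, ← inner_rowComb]
        refine (abs_real_inner_le_norm _ _).trans ?_
        rw [hzn, mul_one]

section

variable {m k : ℕ} {E : Type*} [NormedAddCommGroup E] [InnerProductSpace ℝ E]
  [FiniteDimensional ℝ E] [MeasurableSpace E] [BorelSpace E]

/-- Moments of one row combination. -/
theorem row_moment (hk : 2 ≤ k) (ι : Mat m k →ₗᵢ[ℝ] E) (P : E →ₗ[ℝ] Mat m k)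
    (hιP : ∀ Y z, inner ℝ (ι Y) z = inner ℝ Y (P z))
    {K : Set E} (hKm : MeasurableSet K) (hKc : Convex ℝ K) (hKb : Bornology.IsBounded K)
    (hinv : ∀ x y : EuclideanSpace ℝ (Fin k), ‖x‖ = ‖y‖ → ∃ U : E ≃ₗᵢ[ℝ] E, (∀ z ∈ K, U z ∈ K) ∧
      ∃ O : EuclideanSpace ℝ (Fin k) ≃ₗᵢ[ℝ] EuclideanSpace ℝ (Fin k), O x = y ∧
        ∀ z v, rowComb v (P (U z)) = O (rowComb v (P z)))
    {σ : ℝ} (hσ : 0 < σ)
    (hS : ∀ u, ∫⁻ z in K, ENNReal.ofReal (‖rowComb u (P z)‖ ^ 2) ≤
      ENNReal.ofReal (σ ^ 2 * ‖u‖ ^ 2) * volume K)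
    {q : ℕ} (hq : k ≤ q) (u : EuclideanSpace ℝ (Fin m)) :
    ∫⁻ z in K, ENNReal.ofReal (‖rowComb u (P z)‖ ^ q) ≤
      ENNReal.ofReal ((258 * (q / k) * σ * ‖u‖) ^ q) * volume K := by
  have hPc : Continuous P := LinearMap.continuous_of_finiteDimensional P
  rcases eq_or_ne u 0 with rfl | hu
  · have h0 : ∀ z, rowComb (0 : EuclideanSpace ℝ (Fin m)) (P z) = 0 := by
      intro z; ext j; simp
    simp only [h0, norm_zero]
    rw [zero_pow (by omega : q ≠ 0)]
    simp
  have hu0 : 0 < ‖u‖ := norm_pos_iff.2 hu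
  set e := (‖u‖)⁻¹ • u with he
  have hen : ‖e‖ = 1 := by rw [he, norm_smul, norm_inv, norm_norm, inv_mul_cancel₀ hu0.ne']
  have hue : u = ‖u‖ • e := by rw [he, smul_smul, mul_inv_cancel₀ hu0.ne', one_smul]
  let S0 : EuclideanSpace ℝ (Fin k) →ₗᵢ[ℝ] Mat m k :=
    { toLinearMap := outer e
      norm_map' := fun x => by
        change ‖(outer e x : Mat m k)‖ = _
        rw [norm_outer, hen, one_mul] }
  have hST : ∀ x z, inner ℝ ((ι.comp S0) x) z = inner ℝ x (((rowL e).comp P) z) := by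
    intro x z
    change inner ℝ (ι (outer e x)) z = inner ℝ x (rowComb e (P z))
    rw [hιP, inner_outer]
  have hTm : Measurable fun z => ‖rowComb e (P z)‖ := by
    apply Continuous.measurable
    exact (continuous_rowComb.comp (continuous_const.prodMk hPc)).norm
  have htail : 4 * volume {z ∈ K | 2 * σ < ‖((rowL e).comp P) z‖} ≤ volume K := by
    have h1 := mul_meas_ge_le_lintegral (μ := volume.restrict K)
      (f := fun z => ENNReal.ofReal (‖rowComb e (P z)‖ ^ 2)) (by fun_prop)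
      (ENNReal.ofReal ((2 * σ) ^ 2))
    have h2 := h1.trans (hS e)
    rw [hen, one_pow, mul_one] at h2
    have h3 : volume {z ∈ K | 2 * σ < ‖((rowL e).comp P) z‖} ≤
        (volume.restrict K) {z | ENNReal.ofReal ((2 * σ) ^ 2) ≤
          ENNReal.ofReal (‖rowComb e (P z)‖ ^ 2)} := by
      rw [Measure.restrict_apply' hKm]
      refine measure_mono ?_
      rintro z ⟨hz, hz2⟩
      refine ⟨ENNReal.ofReal_le_ofReal ?_, hz⟩
      apply pow_le_pow_left₀ (by positivity)
      exact hz2.le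
    have h4 : ENNReal.ofReal (σ ^ 2) * (4 * volume {z ∈ K | 2 * σ < ‖((rowL e).comp P) z‖}) ≤
        ENNReal.ofReal (σ ^ 2) * volume K := by
      calc ENNReal.ofReal (σ ^ 2) * (4 * volume {z ∈ K | 2 * σ < ‖((rowL e).comp P) z‖})
          = ENNReal.ofReal ((2 * σ) ^ 2) * volume {z ∈ K | 2 * σ < ‖((rowL e).comp P) z‖} := by
            rw [← mul_assoc, mul_pow, mul_comm (2 ^ 2 : ℝ), ENNReal.ofReal_mul (by positivity)]
            norm_num
        _ ≤ _ := by gcongr
        _ ≤ _ := h2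
    refine (ENNReal.mul_le_mul_iff_right ?_ ENNReal.ofReal_ne_top).1 h4
    simp only [ne_eq, ENNReal.ofReal_eq_zero, not_le]
    positivity
  have h5 := one_row (ι.comp S0) ((rowL e).comp P) hST hk hKm hKc hKb (by
    intro x y hxy
    obtain ⟨U, hU, O, hO, hP⟩ := hinv x y hxy
    exact ⟨U, hU, O, hO, fun z => hP z e⟩) (r := 2 * σ) (by positivity) htail hq
  have h6 : ∀ z, ENNReal.ofReal (‖rowComb u (P z)‖ ^ q) =
      ENNReal.ofReal (‖u‖ ^ q) * ENNReal.ofReal (‖((rowL e).comp P) z‖ ^ q) := by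
    intro z
    rw [← ENNReal.ofReal_mul (by positivity), ← mul_pow]
    congr 2
    conv_lhs => rw [hue, rowComb_smul_left, norm_smul, norm_norm]
    rfl
  simp_rw [h6]
  rw [lintegral_const_mul' _ _ ENNReal.ofReal_ne_top]
  calc ENNReal.ofReal (‖u‖ ^ q) * ∫⁻ z in K, ENNReal.ofReal (‖((rowL e).comp P) z‖ ^ q)
      ≤ ENNReal.ofReal (‖u‖ ^ q) *
        (ENNReal.ofReal ((129 * (q / k) * (2 * σ)) ^ q) * volume K) := by gcongr
    _ = _ := by
        rw [← mul_assoc, ← ENNReal.ofReal_mul (by positivity), ← mul_pow]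
        congr 3
        ring

/-- Module M7: tail of the operator norm, all orders. -/
theorem op_tail (hk : 2 ≤ k) (ι : Mat m k →ₗᵢ[ℝ] E) (P : E →ₗ[ℝ] Mat m k)
    (hιP : ∀ Y z, inner ℝ (ι Y) z = inner ℝ Y (P z))
    {K : Set E} (hKm : MeasurableSet K) (hKc : Convex ℝ K) (hKb : Bornology.IsBounded K)
    (hinv : ∀ x y : EuclideanSpace ℝ (Fin k), ‖x‖ = ‖y‖ → ∃ U : E ≃ₗᵢ[ℝ] E, (∀ z ∈ K, U z ∈ K) ∧
      ∃ O : EuclideanSpace ℝ (Fin k) ≃ₗᵢ[ℝ] EuclideanSpace ℝ (Fin k), O x = y ∧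
        ∀ z v, rowComb v (P (U z)) = O (rowComb v (P z)))
    {σ : ℝ} (hσ : 0 < σ)
    (hS : ∀ u, ∫⁻ z in K, ENNReal.ofReal (‖rowComb u (P z)‖ ^ 2) ≤
      ENNReal.ofReal (σ ^ 2 * ‖u‖ ^ 2) * volume K)
    {q : ℕ} (hq : k ≤ q) {R : ℝ} (hR : 0 < R) :
    volume {z ∈ K | ∃ v, R * ‖v‖ < ‖rowComb v (P z)‖} ≤
      ENNReal.ofReal ((4500 * (q / k) * σ * Real.sqrt ((m + q) / q) / R) ^ q) * volume K := by
  have hPc : Continuous P := LinearMap.continuous_of_finiteDimensional P
  have hk0 : (0 : ℝ) < k := by exact_mod_cast (by omega : 0 < k)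
  have hq0 : (0 : ℝ) < q := by exact_mod_cast (by omega : 0 < q)
  set A : ℝ := (Real.sqrt q / 7 * R) ^ q with hA
  have hA0 : 0 < A := by positivity
  let J : E → ℝ≥0∞ := fun z =>
    ∫⁻ g, ENNReal.ofReal (‖rowComb g (P z)‖ ^ q) ∂(stdGaussian (EuclideanSpace ℝ (Fin m)))
  have hjoint : Measurable fun p : E × EuclideanSpace ℝ (Fin m) =>
      ENNReal.ofReal (‖rowComb p.2 (P p.1)‖ ^ q) := by
    apply Measurable.ennreal_ofReal
    apply Continuous.measurable
    exact ((continuous_rowComb.comp (continuous_snd.prodMk (hPc.comp continuous_fst))).norm).pow q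
  have hJm : Measurable J := hjoint.lintegral_prod_right'
  have h1 : ENNReal.ofReal A * volume {z ∈ K | ∃ v, R * ‖v‖ < ‖rowComb v (P z)‖} ≤
      ∫⁻ z in K, J z := by
    refine le_trans ?_ (mul_meas_ge_le_lintegral (μ := volume.restrict K) hJm (ENNReal.ofReal A))
    refine mul_le_mul' le_rfl ?_
    rw [Measure.restrict_apply' hKm]
    refine measure_mono ?_
    rintro z ⟨hz, v, hv⟩
    exact ⟨gauss_row_lower (by omega) (P z) v hR.le hv, hz⟩
  have h2 : ∫⁻ z in K, J z ≤
      ENNReal.ofReal ((258 * (q / k) * σ * Real.sqrt (6 * (m + q))) ^ q) * volume K := by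
    calc ∫⁻ z in K, J z
        = ∫⁻ g, (∫⁻ z in K, ENNReal.ofReal (‖rowComb g (P z)‖ ^ q))
            ∂(stdGaussian (EuclideanSpace ℝ (Fin m))) :=
          lintegral_lintegral_swap hjoint.aemeasurable
      _ ≤ ∫⁻ g, ENNReal.ofReal ((258 * (q / k) * σ * ‖g‖) ^ q) * volume K
            ∂(stdGaussian (EuclideanSpace ℝ (Fin m))) :=
          lintegral_mono fun g => row_moment hk ι P hιP hKm hKc hKb hinv hσ hS hq g
      _ = (∫⁻ g, ENNReal.ofReal ((258 * (q / k) * σ) ^ q) * ENNReal.ofReal (‖g‖ ^ q)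
            ∂(stdGaussian (EuclideanSpace ℝ (Fin m)))) * volume K := by
          rw [lintegral_mul_const' _ _ hKb.measure_lt_top.ne]
          congr 1
          refine lintegral_congr fun g => ?_
          rw [← ENNReal.ofReal_mul (by positivity), mul_pow _ ‖g‖]
      _ ≤ ENNReal.ofReal ((258 * (q / k) * σ) ^ q) *
            ENNReal.ofReal (Real.sqrt (6 * (m + q)) ^ q) * volume K := by
          rw [lintegral_const_mul' _ _ ENNReal.ofReal_ne_top]
          gcongr
          exact gauss_norm_moment (by omega)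
      _ = _ := by
          rw [← ENNReal.ofReal_mul (by positivity), ← mul_pow]
  have h3 : ENNReal.ofReal A * volume {z ∈ K | ∃ v, R * ‖v‖ < ‖rowComb v (P z)‖} ≤
      ENNReal.ofReal A * (ENNReal.ofReal
        ((4500 * (q / k) * σ * Real.sqrt ((m + q) / q) / R) ^ q) * volume K) := by
    refine (h1.trans h2).trans ?_
    rw [← mul_assoc, ← ENNReal.ofReal_mul hA0.le, hA, ← mul_pow]
    refine mul_le_mul' (ENNReal.ofReal_le_ofReal (pow_le_pow_left₀ (by positivity) ?_ q)) le_rfl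
    have h4 : Real.sqrt q / 7 * R * (4500 * (q / k) * σ * Real.sqrt ((m + q) / q) / R) =
        (4500 / 7) * (q / k) * σ * (Real.sqrt q * Real.sqrt ((m + q) / q)) := by
      field_simp
    have h5 : Real.sqrt q * Real.sqrt ((m + q) / q) = Real.sqrt (m + q) := by
      rw [← Real.sqrt_mul hq0.le]
      congr 1
      field_simp
    have h6 : Real.sqrt (6 * (m + q)) ≤ 2.45 * Real.sqrt (m + q) := by
      rw [Real.sqrt_mul (by norm_num)]
      gcongr
      rw [Real.sqrt_le_left (by norm_num)]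
      norm_num
    rw [h4, h5]
    calc 258 * ((q : ℝ) / k) * σ * Real.sqrt (6 * (m + q))
        ≤ 258 * ((q : ℝ) / k) * σ * (2.45 * Real.sqrt (m + q)) := by gcongr
      _ = 632.1 * ((q : ℝ) / k * σ * Real.sqrt (m + q)) := by ring
      _ ≤ (4500 / 7) * ((q : ℝ) / k * σ * Real.sqrt (m + q)) := by
          gcongr
          norm_num
      _ = _ := by ring
  refine (ENNReal.mul_le_mul_iff_right ?_ ENNReal.ofReal_ne_top).1 h3
  simp only [ne_eq, ENNReal.ofReal_eq_zero, not_le]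
  exact hA0

end

end Pool.Agent.H69.KLS
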