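import Mathlib
import Pool.Agent.H97.KlsRadial
import Pool.Agent.H69.KLS.Tail
import Pool.Agent.H69.KLS.SOk

/-!
Module M7, final forms: exponential tails under `SO(k)` invariance.
-/

open MeasureTheory Measure Set Filter Topology ProbabilityTheory Matrix
open scoped ENNReal NNReal Real
open Pool.H97.KLS

namespace Pool.Agent.H69.KLS

section

variable {k : ℕ} {E : Type*} [NormedAddCommGroup E] [InnerProductSpace ℝ E]
  [FiniteDimensional ℝ E] [MeasurableSpace E] [BorelSpace E]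

lemma lintegral_le_of_integral_le {K : Set E} (hKb : Bornology.IsBounded K)
    {f : E → ℝ} (hf : Continuous f) (hf0 : ∀ x, 0 ≤ f x) {c : ℝ} (hc : 0 ≤ c)
    (h : ∫ x in K, f x ≤ c * volume.real K) :
    ∫⁻ x in K, ENNReal.ofReal (f x) ≤ ENNReal.ofReal c * volume K := by
  have hKt : volume K ≠ ⊤ := hKb.measure_lt_top.ne
  have hint : IntegrableOn f K := by
    have hcl : IsCompact (closure K) := hKb.isCompact_closure
    exact (hf.continuousOn.integrableOn_compact hcl).mono_set subset_closure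
  rw [← ofReal_integral_eq_lintegral_ofReal hint (Eventually.of_forall hf0)]
  calc ENNReal.ofReal (∫ x in K, f x) ≤ ENNReal.ofReal (c * volume.real K) :=
        ENNReal.ofReal_le_ofReal h
    _ = ENNReal.ofReal c * volume K := by
        rw [ENNReal.ofReal_mul hc, Measure.real, ENNReal.ofReal_toReal hKt]

/-- Exponential tail of one coisometric `SO(k)`-equivariant image. -/
theorem one_row_exp (S : EuclideanSpace ℝ (Fin k) →ₗᵢ[ℝ] E) (T : E →ₗ[ℝ] EuclideanSpace ℝ (Fin k))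
    (hST : ∀ x z, inner ℝ (S x) z = inner ℝ x (T z))
    (hk : 2 ≤ k) {K : Set E} (hKm : MeasurableSet K) (hKc : Convex ℝ K)
    (hKb : Bornology.IsBounded K)
    (hinv : ∀ A : Matrix (Fin k) (Fin k) ℝ, A * Aᵀ = 1 → A.det = 1 →
      ∃ U : E ≃ₗᵢ[ℝ] E, (∀ z ∈ K, U z ∈ K) ∧ ∀ z, T (U z) = WithLp.toLp 2 (A *ᵥ (T z).ofLp))
    {s : ℝ} (hs : 0 < s) (hS : ∫ x in K, ‖T x‖ ^ 2 ≤ k * s ^ 2 * volume.real K)
    {t : ℝ} (ht : 1500 ≤ t) :
    volume {z ∈ K | t * s * Real.sqrt k < ‖T z‖} ≤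
      ENNReal.ofReal (Real.exp (-(k * t / 1500))) * volume K := by
  have hk0 : (0 : ℝ) < k := by exact_mod_cast (by omega : 0 < k)
  have hk2 : (2 : ℝ) ≤ k := by exact_mod_cast hk
  have ht0 : 0 < t := by linarith
  have hsk : 0 < Real.sqrt k := Real.sqrt_pos.2 hk0
  have hTc : Continuous T := LinearMap.continuous_of_finiteDimensional T
  have hlin := lintegral_le_of_integral_le hKb (f := fun x => ‖T x‖ ^ 2) (by fun_prop)
    (fun x => by positivity) (c := k * s ^ 2) (by positivity) hS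
  have hKt : volume K ≠ ⊤ := hKb.measure_lt_top.ne
  -- Markov
  have markov : ∀ (q : ℕ) (a : ℝ), 0 < a →
      ENNReal.ofReal (a ^ q) * volume {z ∈ K | a < ‖T z‖} ≤
        ∫⁻ z in K, ENNReal.ofReal (‖T z‖ ^ q) := by
    intro q a ha
    refine le_trans ?_ (mul_meas_ge_le_lintegral (μ := volume.restrict K)
      (f := fun z => ENNReal.ofReal (‖T z‖ ^ q)) (by fun_prop) (ENNReal.ofReal (a ^ q)))
    refine mul_le_mul' le_rfl ?_
    rw [Measure.restrict_apply' hKm]
    refine measure_mono ?_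
    rintro z ⟨hz, hz2⟩
    exact ⟨ENNReal.ofReal_le_ofReal (pow_le_pow_left₀ ha.le hz2.le q), hz⟩
  set r := 2 * s * Real.sqrt k with hr
  have hr0 : 0 < r := by positivity
  have htail : 4 * volume {z ∈ K | r < ‖T z‖} ≤ volume K := by
    have h1 := (markov 2 r hr0).trans hlin
    have h2 : r ^ 2 = 4 * (k * s ^ 2) := by
      rw [hr, mul_pow, Real.sq_sqrt hk0.le]; ring
    rw [h2, ENNReal.ofReal_mul (by norm_num)] at h1
    have h3 : ENNReal.ofReal (k * s ^ 2) * (4 * volume {z ∈ K | r < ‖T z‖}) ≤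
        ENNReal.ofReal (k * s ^ 2) * volume K := by
      calc ENNReal.ofReal (k * s ^ 2) * (4 * volume {z ∈ K | r < ‖T z‖})
          = ENNReal.ofReal 4 * ENNReal.ofReal (k * s ^ 2) * volume {z ∈ K | r < ‖T z‖} := by
            rw [show ENNReal.ofReal 4 = 4 by norm_num]; ring
        _ ≤ _ := h1
    refine (ENNReal.mul_le_mul_iff_right ?_ ENNReal.ofReal_ne_top).1 h3
    simp only [ne_eq, ENNReal.ofReal_eq_zero, not_le]
    positivity
  set q := ⌊k * t / 702⌋₊ with hq
  have hkt : 2 * k ≤ k * t / 702 := by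
    rw [le_div_iff₀ (by norm_num)]
    nlinarith
  have hqle : (q : ℝ) ≤ k * t / 702 := Nat.floor_le (by positivity)
  have hqgt : k * t / 702 < q + 1 := Nat.lt_floor_add_one _
  have hkq : k ≤ q := by
    have : (k : ℝ) ≤ k * t / 702 := by linarith
    exact Nat.le_floor this
  have hq0 : (0 : ℝ) < q := lt_of_lt_of_le hk0 (by exact_mod_cast hkq)
  have hmom := one_row S T hST hk hKm hKc hKb (by
    intro x y hxy
    obtain ⟨A, hA, hdet, hAx⟩ := exists_SO hk x y hxy
    obtain ⟨U, hU, hTU⟩ := hinv A hA hdet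
    refine ⟨U, hU, orthLI A hA, ?_, hTU⟩
    rw [orthLI_apply, hAx]) hr0 htail hkq
  have ha0 : 0 < t * s * Real.sqrt k := by positivity
  have h4 := (markov q (t * s * Real.sqrt k) ha0).trans hmom
  have h5 : (129 * (q / k) * r) ^ q ≤ (t * s * Real.sqrt k) ^ q * Real.exp (-(k * t / 1500)) := by
    have h6 : 129 * ((q : ℝ) / k) * r ≤ (t * s * Real.sqrt k) * Real.exp (-1) := by
      have h7 : (q : ℝ) / k ≤ t / 702 := by
        rw [div_le_iff₀ hk0]
        calc (q : ℝ) ≤ k * t / 702 := hqle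
          _ = t / 702 * k := by ring
      have h8 : (258 : ℝ) / 702 ≤ Real.exp (-1) := by
        rw [Real.exp_neg, show (258 : ℝ) / 702 = (702 / 258)⁻¹ by norm_num]
        apply inv_anti₀ (Real.exp_pos _)
        have := Real.exp_one_lt_d9
        norm_num at this ⊢
        linarith
      calc 129 * ((q : ℝ) / k) * r ≤ 129 * (t / 702) * r := by gcongr
        _ = (t * s * Real.sqrt k) * (258 / 702) := by rw [hr]; ring
        _ ≤ _ := by gcongr
    calc (129 * ((q : ℝ) / k) * r) ^ q ≤ ((t * s * Real.sqrt k) * Real.exp (-1)) ^ q := by gcongr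
      _ = (t * s * Real.sqrt k) ^ q * Real.exp (-q) := by
          rw [mul_pow, ← Real.exp_nat_mul]
          congr 2
          ring
      _ ≤ _ := by
          gcongr
          have h9 : k * t / 1500 ≤ k * t / 702 - 1 := by
            have : (3000 : ℝ) ≤ k * t := by nlinarith
            linarith
          linarith
  have h10 : ENNReal.ofReal ((t * s * Real.sqrt k) ^ q) *
      volume {z ∈ K | t * s * Real.sqrt k < ‖T z‖} ≤
      ENNReal.ofReal ((t * s * Real.sqrt k) ^ q) *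
        (ENNReal.ofReal (Real.exp (-(k * t / 1500))) * volume K) := by
    refine h4.trans ((mul_le_mul' (ENNReal.ofReal_le_ofReal h5) le_rfl).trans_eq ?_)
    rw [ENNReal.ofReal_mul (by positivity), mul_assoc]
  refine (ENNReal.mul_le_mul_iff_right ?_ ENNReal.ofReal_ne_top).1 h10
  simp only [ne_eq, ENNReal.ofReal_eq_zero, not_le]
  positivity

/-- the second moment of a row combination -/
lemma row_second_moment {m : ℕ} (ι : Mat m k →ₗᵢ[ℝ] E) (P : E →ₗ[ℝ] Mat m k)
    (hιP : ∀ Y z, inner ℝ (ι Y) z = inner ℝ Y (P z)) {K : Set E}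
    (hKb : Bornology.IsBounded K) {s : ℝ}
    (hS : ∀ v : E, ∫ x in K, (inner ℝ v x) ^ 2 ≤ s ^ 2 * ‖v‖ ^ 2 * volume.real K)
    (u : EuclideanSpace ℝ (Fin m)) :
    ∫⁻ z in K, ENNReal.ofReal (‖rowComb u (P z)‖ ^ 2) ≤
      ENNReal.ofReal ((s * Real.sqrt k) ^ 2 * ‖u‖ ^ 2) * volume K := by
  have h1 : ∀ z, ‖rowComb u (P z)‖ ^ 2 =
      ∑ j : Fin k, (inner ℝ (ι (outer u (EuclideanSpace.single j 1))) z) ^ 2 := by
    intro z
    rw [EuclideanSpace.real_norm_sq_eq]
    refine Finset.sum_congr rfl fun j _ => ?_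
    rw [hιP, inner_outer, EuclideanSpace.inner_single_left]
    simp
  have h2 : ∀ z, ENNReal.ofReal (‖rowComb u (P z)‖ ^ 2) =
      ∑ j : Fin k, ENNReal.ofReal ((inner ℝ (ι (outer u (EuclideanSpace.single j 1))) z) ^ 2) := by
    intro z
    rw [h1, ENNReal.ofReal_sum_of_nonneg fun _ _ => sq_nonneg _]
  simp_rw [h2]
  rw [lintegral_finsetSum _ fun j _ => by fun_prop]
  calc ∑ j : Fin k, ∫⁻ z in K,
        ENNReal.ofReal ((inner ℝ (ι (outer u (EuclideanSpace.single j 1))) z) ^ 2)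
      ≤ ∑ _j : Fin k, ENNReal.ofReal (s ^ 2 * ‖u‖ ^ 2) * volume K := by
        refine Finset.sum_le_sum fun j _ => ?_
        refine lintegral_le_of_integral_le hKb (by fun_prop) (fun _ => sq_nonneg _)
          (by positivity) ?_
        have := hS (ι (outer u (EuclideanSpace.single j 1)))
        rwa [ι.norm_map, norm_outer, PiLp.norm_single, norm_one, mul_one] at this
    _ = _ := by
        rw [Finset.sum_const, Finset.card_univ, Fintype.card_fin, nsmul_eq_mul, ← mul_assoc]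
        congr 1
        rw [← ENNReal.ofReal_natCast, ← ENNReal.ofReal_mul (by positivity), mul_pow,
          Real.sq_sqrt (by positivity)]
        congr 1
        ring

/-- Exponential tail of the operator norm, for all `t ≥ 1`. -/
theorem op_tail_exp {m : ℕ} (hk : 2 ≤ k) (ι : Mat m k →ₗᵢ[ℝ] E) (P : E →ₗ[ℝ] Mat m k)
    (hιP : ∀ Y z, inner ℝ (ι Y) z = inner ℝ Y (P z))
    {K : Set E} (hKm : MeasurableSet K) (hKc : Convex ℝ K) (hKb : Bornology.IsBounded K)
    (hinv : ∀ A : Matrix (Fin k) (Fin k) ℝ, A * Aᵀ = 1 → A.det = 1 →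
      ∃ U : E ≃ₗᵢ[ℝ] E, (∀ z ∈ K, U z ∈ K) ∧
        ∀ z v, rowComb v (P (U z)) = WithLp.toLp 2 (A *ᵥ (rowComb v (P z)).ofLp))
    {s : ℝ} (hs : 0 < s)
    (hS : ∀ v : E, ∫ x in K, (inner ℝ v x) ^ 2 ≤ s ^ 2 * ‖v‖ ^ 2 * volume.real K)
    {t : ℝ} (ht : 1 ≤ t) :
    volume {z ∈ K | ∃ v, 24500 * t * s * Real.sqrt (m + k) * ‖v‖ < ‖rowComb v (P z)‖} ≤
      ENNReal.ofReal (Real.exp (-(k * t))) * volume K := by
  have hk0 : (0 : ℝ) < k := by exact_mod_cast (by omega : 0 < k)
  have hk1 : (1 : ℝ) ≤ k := by exact_mod_cast (by omega : 1 ≤ k)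
  have ht0 : 0 < t := by linarith
  have hm0 : (0 : ℝ) ≤ m := Nat.cast_nonneg m
  set q := ⌈k * t⌉₊ with hq
  have hqge : k * t ≤ q := Nat.le_ceil _
  have hqlt : (q : ℝ) < k * t + 1 := Nat.ceil_lt_add_one (by positivity)
  have hkt1 : (k : ℝ) ≤ k * t := le_mul_of_one_le_right hk0.le ht
  have hkq : k ≤ q := by
    have : (k : ℝ) ≤ q := hkt1.trans hqge
    exact_mod_cast this
  have hq0 : (0 : ℝ) < q := lt_of_lt_of_le hk0 (by exact_mod_cast hkq)
  have hR : 0 < 24500 * t * s * Real.sqrt (m + k) := by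
    have : 0 < Real.sqrt (m + k) := Real.sqrt_pos.2 (by positivity)
    positivity
  have h1 := op_tail (σ := s * Real.sqrt k) hk ι P hιP hKm hKc hKb (by
    intro x y hxy
    obtain ⟨A, hA, hdet, hAx⟩ := exists_SO hk x y hxy
    obtain ⟨U, hU, hTU⟩ := hinv A hA hdet
    refine ⟨U, hU, orthLI A hA, ?_, hTU⟩
    rw [orthLI_apply, hAx]) (by positivity) (row_second_moment ι P hιP hKb hS) hkq hR
  refine h1.trans (mul_le_mul' (ENNReal.ofReal_le_ofReal ?_) le_rfl)
  have h2 : 4500 * ((q : ℝ) / k) * (s * Real.sqrt k) * Real.sqrt ((m + q) / q) /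
      (24500 * t * s * Real.sqrt (m + k)) ≤ Real.exp (-1) := by
    have h3 : (q : ℝ) / k ≤ 2 * t := by
      rw [div_le_iff₀ hk0]
      nlinarith
    have h4 : Real.sqrt k * Real.sqrt ((m + q) / q) ≤ Real.sqrt (m + k) := by
      rw [← Real.sqrt_mul hk0.le]
      apply Real.sqrt_le_sqrt
      have h5 : (k : ℝ) * ((m + q) / q) = m * (k / q) + k := by
        field_simp
      rw [h5]
      have h6 : (k : ℝ) / q ≤ 1 := by
        rw [div_le_one hq0]; exact_mod_cast hkq
      nlinarith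
    rw [div_le_iff₀ hR]
    have h8 : (9000 : ℝ) / 24500 ≤ Real.exp (-1) := by
      rw [Real.exp_neg, show (9000 : ℝ) / 24500 = (24500 / 9000)⁻¹ by norm_num]
      apply inv_anti₀ (Real.exp_pos _)
      have := Real.exp_one_lt_d9
      norm_num at this ⊢
      linarith
    calc 4500 * ((q : ℝ) / k) * (s * Real.sqrt k) * Real.sqrt ((m + q) / q)
        = 4500 * ((q : ℝ) / k) * s * (Real.sqrt k * Real.sqrt ((m + q) / q)) := by ring
      _ ≤ 4500 * (2 * t) * s * Real.sqrt (m + k) := by gcongr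
      _ = (9000 / 24500) * (24500 * t * s * Real.sqrt (m + k)) := by ring
      _ ≤ _ := by gcongr
  calc (4500 * ((q : ℝ) / k) * (s * Real.sqrt k) * Real.sqrt ((m + q) / q) /
      (24500 * t * s * Real.sqrt (m + k))) ^ q ≤ Real.exp (-1) ^ q := by gcongr
    _ = Real.exp (-q) := by rw [← Real.exp_nat_mul]; congr 1; ring
    _ ≤ Real.exp (-(k * t)) := by
        apply Real.exp_le_exp.2
        linarith

end

/-- rotation of a row combination -/
lemma rowComb_rotX {m k : ℕ} (O : Matrix (Fin k) (Fin k) ℝ) (v : EuclideanSpace ℝ (Fin m))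
    (X : Mat m k) : rowComb v (rotX O X) = WithLp.toLp 2 (Oᵀ *ᵥ (rowComb v X).ofLp) := by
  ext j
  simp only [rowComb_apply, rotX_apply, Matrix.mulVec, dotProduct, Matrix.transpose_apply,
    Finset.mul_sum]
  rw [Finset.sum_comm]
  refine Finset.sum_congr rfl fun l _ => Finset.sum_congr rfl fun i _ => by ring

/-- The instance of matrices with right `SO(k)`-invariance. -/
theorem op_tail_exp_mat {m k : ℕ} (hk : 2 ≤ k) {K : Set (Mat m k)} (hKm : MeasurableSet K)
    (hKc : Convex ℝ K) (hKb : Bornology.IsBounded K) (hKinv : SOInvSet K)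
    {s : ℝ} (hs : 0 < s)
    (hS : ∀ v : Mat m k, ∫ x in K, (inner ℝ v x) ^ 2 ≤ s ^ 2 * ‖v‖ ^ 2 * volume.real K)
    {t : ℝ} (ht : 1 ≤ t) :
    volume {X ∈ K | ∃ v, 24500 * t * s * Real.sqrt (m + k) * ‖v‖ < ‖rowComb v X‖} ≤
      ENNReal.ofReal (Real.exp (-(k * t))) * volume K := by
  refine op_tail_exp hk LinearIsometry.id LinearMap.id (fun Y z => rfl) hKm hKc hKb ?_ hs hS ht
  intro A hA hdet
  have hA' : Aᵀ * Aᵀᵀ = 1 := by
    rw [Matrix.transpose_transpose]; exact mul_eq_one_comm.1 hA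
  refine ⟨rotXLI Aᵀ hA', ?_, ?_⟩
  · intro X hX
    rw [rotXLI_apply]
    exact hKinv ⟨Aᵀ, mem_of _ hA'⟩ (by rw [Matrix.det_transpose]; exact hdet) X hX
  · intro X v
    change rowComb v (rotX Aᵀ X) = _
    rw [rowComb_rotX, Matrix.transpose_transpose]
    rfl

end Pool.Agent.H69.KLS
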